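import Pool.Agent.TH965.Copy

set_option autoImplicit false
set_option linter.unusedSectionVars false

/-!
# Thresholds in `G(n,p)` and the expectation threshold
-/

namespace Pool.Agent.TH965

open Finset
open scoped Classical
open Pool.Agent.TH965.Emb Pool.Agent.TH965.Copy Pool.Agent.TH965.Spread

/-- The probability that the binomial random graph `G(n,p)` has the property `P`. -/
noncomputable def gnp (n : ℕ) (p : ℝ) (P : SimpleGraph (Fin n) → Prop) : ℝ :=
  ∑ G : SimpleGraph (Fin n),
    if P G then p ^ G.edgeSet.ncard * (1 - p) ^ (n.choose 2 - G.edgeSet.ncard) else 0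

/-- The expectation threshold: the least `p` in `[0,1]` for which every subgraph `H'` of `H` has an
expected number of copies `(n)_{v(H')} / |Aut(H')| * p ^ e(H')` in `G(n,p)` of at least one. -/
noncomputable def pE (n : ℕ) {m : ℕ} (H : SimpleGraph (Fin m)) : ℝ :=
  sInf {p : ℝ | 0 ≤ p ∧ p ≤ 1 ∧ ∀ H' : H.Subgraph,
    1 ≤ (n.descFactorial H'.verts.ncard : ℝ) / (Nat.card (H'.coe ≃g H'.coe) : ℝ)
      * p ^ H'.edgeSet.ncard}

lemma eF_card {V : Type} [Fintype V] (G : SimpleGraph V) : (eF G).card = G.edgeSet.ncard := by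
  rw [← Set.ncard_coe_finset]
  congr 1
  ext e
  rw [Finset.mem_coe, mem_eF]

lemma eF_top_card (n : ℕ) : (eF (⊤ : SimpleGraph (Fin n))).card = n.choose 2 := by
  rw [eF_card, ← Nat.card_coe_set_eq, Nat.card_eq_fintype_card, ← SimpleGraph.edgeFinset_card,
    SimpleGraph.card_edgeFinset_top_eq_card_choose_two, Fintype.card_fin]

lemma gnp_eq_exs (n : ℕ) (p : ℝ) (P : SimpleGraph (Fin n) → Prop) :
    gnp n p P = exs (eF (⊤ : SimpleGraph (Fin n))) p
      (fun W => if P (SimpleGraph.fromEdgeSet (W : Set (Sym2 (Fin n)))) then 1 else 0) := by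
  unfold gnp exs
  rw [eF_top_card]
  apply Finset.sum_bij' (fun G _ => eF G)
    (fun W _ => SimpleGraph.fromEdgeSet (W : Set (Sym2 (Fin n))))
  · intro G _
    rw [Finset.mem_powerset]
    intro e he
    rw [mem_eF] at he ⊢
    exact SimpleGraph.edgeSet_mono le_top he
  · intro W _
    exact Finset.mem_univ _
  · intro G _
    have : ((eF G : Finset (Sym2 (Fin n))) : Set (Sym2 (Fin n))) = G.edgeSet := by
      ext e; rw [Finset.mem_coe, mem_eF]
    rw [this, SimpleGraph.fromEdgeSet_edgeSet]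
  · intro W hW
    rw [Finset.mem_powerset] at hW
    ext e
    rw [mem_eF, SimpleGraph.edgeSet_fromEdgeSet, Set.mem_sdiff, Finset.mem_coe]
    refine ⟨fun h => h.1, fun h => ⟨h, ?_⟩⟩
    have := hW h
    rw [mem_eF, SimpleGraph.edgeSet_top] at this
    exact this
  · intro G _
    have : ((eF G : Finset (Sym2 (Fin n))) : Set (Sym2 (Fin n))) = G.edgeSet := by
      ext e; rw [Finset.mem_coe, mem_eF]
    beta_reduce
    rw [this, SimpleGraph.fromEdgeSet_edgeSet, eF_card]
    split_ifs
    · rw [mul_one]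
    · rw [mul_zero]

/-- Monotone properties become more likely. -/
lemma gnp_mono (n : ℕ) {p p' : ℝ} (hp0 : 0 ≤ p) (hpp : p ≤ p') (hp1 : p' ≤ 1)
    (P : SimpleGraph (Fin n) → Prop) (hP : ∀ G G' : SimpleGraph (Fin n), G ≤ G' → P G → P G') :
    gnp n p P ≤ gnp n p' P := by
  rw [gnp_eq_exs, gnp_eq_exs]
  obtain ⟨b, hb0, hb1, hb⟩ : ∃ b : ℝ, 0 ≤ b ∧ b ≤ 1 ∧ p' = p + b - p * b := by
    by_cases h1 : p = 1
    · exact ⟨1, by norm_num, le_refl 1, by rw [h1]; linarith⟩
    · have h1' : 0 < 1 - p := by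
        rcases lt_or_eq_of_le (hpp.trans hp1) with h | h
        · linarith
        · exact absurd h h1
      refine ⟨(p' - p) / (1 - p), div_nonneg (by linarith) h1'.le, ?_, ?_⟩
      · rw [div_le_one h1']; linarith
      · field_simp
        ring
  rw [hb, exs_union]
  apply exs_mono _ hp0 (hpp.trans hp1)
  intro W₁ _
  have h1 : exs (eF (⊤ : SimpleGraph (Fin n))) b (fun _ =>
      if P (SimpleGraph.fromEdgeSet (W₁ : Set (Sym2 (Fin n)))) then (1 : ℝ) else 0)
      ≤ exs (eF (⊤ : SimpleGraph (Fin n))) b (fun W₂ =>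
      if P (SimpleGraph.fromEdgeSet ((W₁ ∪ W₂ : Finset (Sym2 (Fin n))) : Set (Sym2 (Fin n))))
        then (1 : ℝ) else 0) := by
    apply exs_mono _ hb0 hb1
    intro W₂ _
    by_cases h : P (SimpleGraph.fromEdgeSet (W₁ : Set (Sym2 (Fin n))))
    · have h' : P (SimpleGraph.fromEdgeSet
          ((W₁ ∪ W₂ : Finset (Sym2 (Fin n))) : Set (Sym2 (Fin n)))) := by
        apply hP _ _ _ h
        apply SimpleGraph.fromEdgeSet_mono
        rw [Finset.coe_union]
        exact Set.subset_union_left
      rw [if_pos h, if_pos h']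
    · rw [if_neg h]
      split_ifs <;> norm_num
  rw [exs_const] at h1
  exact h1

/-- The subgraph with edge set `U` and without isolated vertices. -/
def subU {m : ℕ} (H : SimpleGraph (Fin m)) (U : Finset (Sym2 (Fin m)))
    (hU : ∀ e ∈ U, e ∈ H.edgeSet) : H.Subgraph where
  verts := {x | x ∈ supp U}
  Adj a b := s(a, b) ∈ U
  adj_sub := fun h => hU _ h
  edge_vert := fun {a b} h => mem_supp.mpr ⟨_, h, Sym2.mem_mk_left _ _⟩
  symm := ⟨fun a b h => by rw [Sym2.eq_swap]; exact h⟩

lemma subU_edgeSet {m : ℕ} (H : SimpleGraph (Fin m)) (U : Finset (Sym2 (Fin m)))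
    (hU : ∀ e ∈ U, e ∈ H.edgeSet) : (subU H U hU).edgeSet = (U : Set (Sym2 (Fin m))) := by
  ext e
  induction e using Sym2.ind with
  | _ a b => rfl

/-- Permutations preserving `U` give automorphisms of the subgraph. -/
lemma autc_le {m : ℕ} (H : SimpleGraph (Fin m)) (U : Finset (Sym2 (Fin m)))
    (hU : ∀ e ∈ U, e ∈ H.edgeSet) :
    autc U ≤ Nat.card ((subU H U hU).coe ≃g (subU H U hU).coe) := by
  unfold autc
  -- a permutation preserving `U` preserves the support, in both directions
  have hiff : ∀ g : Equiv.Perm (Fin m), (∀ e ∈ U, Sym2.map g e ∈ U) →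
      ∀ e, Sym2.map g e ∈ U ↔ e ∈ U := by
    intro g hg e
    refine ⟨fun h => ?_, hg e⟩
    have hinj : Function.Injective (Sym2.map g) := Sym2.map.injective g.injective
    have himg : U.image (Sym2.map g) = U := by
      apply Finset.eq_of_subset_of_card_le
      · intro x hx
        rw [Finset.mem_image] at hx
        obtain ⟨y, hy, rfl⟩ := hx
        exact hg y hy
      · rw [Finset.card_image_of_injective _ hinj]
    rw [← himg, Finset.mem_image] at h
    obtain ⟨y, hy, hye⟩ := h
    rw [← hinj hye]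
    exact hy
  have hsuppiff : ∀ g : Equiv.Perm (Fin m), (∀ e ∈ U, Sym2.map g e ∈ U) →
      ∀ w, w ∈ supp U ↔ g w ∈ supp U := by
    intro g hg w
    rw [mem_supp, mem_supp]
    constructor
    · rintro ⟨e, he, hwe⟩
      exact ⟨Sym2.map g e, hg e he, Sym2.mem_map.mpr ⟨w, hwe, rfl⟩⟩
    · rintro ⟨e, he, hwe⟩
      have h1 : Sym2.map g (Sym2.map g.symm e) = e := by
        rw [Sym2.map_map]
        have : (⇑g ∘ ⇑g.symm) = id := by
          funext x; simp
        rw [this, Sym2.map_id]
        rfl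
      refine ⟨Sym2.map g.symm e, ?_, ?_⟩
      · rw [← hiff g hg, h1]; exact he
      · rw [Sym2.mem_map]
        exact ⟨g w, hwe, by simp⟩
  let F : {g : Equiv.Perm (Fin m) // (∀ w, w ∉ supp U → g w = w) ∧ ∀ e ∈ U, Sym2.map g e ∈ U} →
      ((subU H U hU).coe ≃g (subU H U hU).coe) := fun g =>
    { toEquiv := Equiv.subtypeEquiv g.1 (hsuppiff g.1 g.2.2)
      map_rel_iff' := by
        intro a b
        have h1 := hiff g.1 g.2.2 s(a.1, b.1)
        rw [Sym2.map_mk] at h1
        exact h1 }
  have hF : Function.Injective F := by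
    intro g g' h
    apply Subtype.ext
    ext1 w
    by_cases hw : w ∈ supp U
    · have h1 := congrArg (fun f => (f ⟨w, hw⟩ : (subU H U hU).verts).1) h
      exact h1
    · rw [g.2.1 w hw, g'.2.1 w hw]
  have : Finite ((subU H U hU).coe ≃g (subU H U hU).coe) := by
    apply Finite.of_injective (fun f => f.toEquiv)
    intro f f' h
    exact RelIso.toEquiv_injective h
  exact Nat.card_le_card_of_injective F hF

/-- The condition on expected counts, in the form used for the embedding count. -/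
lemma autc_bound {n m : ℕ} (H : SimpleGraph (Fin m)) (p : ℝ) (hp : 0 ≤ p)
    (h : ∀ H' : H.Subgraph,
      1 ≤ (n.descFactorial H'.verts.ncard : ℝ) / (Nat.card (H'.coe ≃g H'.coe) : ℝ)
        * p ^ H'.edgeSet.ncard)
    (U : Finset (Sym2 (Fin m))) (hU : ∀ e ∈ U, e ∈ H.edgeSet) :
    (autc U : ℝ) ≤ (n : ℝ) ^ (supp U).card * p ^ U.card := by
  have h1 := h (subU H U hU)
  have hv : (subU H U hU).verts.ncard = (supp U).card := by
    rw [← Set.ncard_coe_finset]
    rfl
  rw [subU_edgeSet, Set.ncard_coe_finset, hv] at h1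
  have h2 : (1 : ℝ) ≤ autc U := by exact_mod_cast one_le_autc U
  have h3 : (autc U : ℝ) ≤ Nat.card ((subU H U hU).coe ≃g (subU H U hU).coe) := by
    exact_mod_cast autc_le H U hU
  have h4 : (0 : ℝ) < Nat.card ((subU H U hU).coe ≃g (subU H U hU).coe) := by linarith
  rw [div_mul_eq_mul_div, le_div_iff₀ h4, one_mul] at h1
  calc (autc U : ℝ) ≤ Nat.card ((subU H U hU).coe ≃g (subU H U hU).coe) := h3
    _ ≤ (n.descFactorial (supp U).card : ℝ) * p ^ U.card := h1
    _ ≤ (n : ℝ) ^ (supp U).card * p ^ U.card := by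
        apply mul_le_mul_of_nonneg_right _ (by positivity)
        exact_mod_cast Nat.descFactorial_le_pow n _

/-- For `p` with all expected counts at least one, the copies of `H` are spread. -/
lemma spread_copies {n m : ℕ} (hn : 2 ≤ n) (hmn : m ≤ n) (H : SimpleGraph (Fin m)) (p : ℝ)
    (hp : 0 < p)
    (h : ∀ H' : H.Subgraph,
      1 ≤ (n.descFactorial H'.verts.ncard : ℝ) / (Nat.card (H'.coe ≃g H'.coe) : ℝ)
        * p ^ H'.edgeSet.ncard)
    (b : ℝ) (hb1 : 1 ≤ b) (hb : min (Real.log n) (H.maxDegree : ℝ) ≤ b)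
    (T : Finset (Sym2 (Fin n))) :
    (Nat.card {σ : Equiv.Perm (Fin n) // T ⊆ cop hmn H σ} : ℝ)
      ≤ (64 * b * p * Real.exp 2) ^ T.card * Fintype.card (Equiv.Perm (Fin n)) := by
  have hn0 : (0 : ℝ) < n := by exact_mod_cast (by omega : 0 < n)
  have hb0 : 0 < b := by linarith
  rw [Nat.card_eq_fintype_card, Fintype.card_subtype]
  by_cases hT : ∀ e ∈ T, ¬ e.IsDiag
  swap
  · push Not at hT
    obtain ⟨e, he, hd⟩ := hT
    have : Finset.univ.filter (fun σ : Equiv.Perm (Fin n) => T ⊆ cop hmn H σ) = ∅ := by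
      rw [Finset.eq_empty_iff_forall_notMem]
      intro σ hσ
      exact cop_notDiag hmn H σ e ((Finset.mem_filter.mp hσ).2 he) hd
    rw [this, Finset.card_empty, Nat.cast_zero]
    positivity
  apply card_through hmn H T
  have hVc : Fintype.card {x // x ∈ supp T} = (supp T).card := Fintype.card_coe _
  by_cases hpe : p ≤ Real.exp (-1)
  · have hρ : p = (p * Real.exp 1) * Real.exp (-1) := by
      rw [mul_assoc, ← Real.exp_add]; simp
    have := embF_card_le H n hn (by rw [Fintype.card_fin]; exact hmn) (p * Real.exp 1)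
      (by positivity) (by
        calc p * Real.exp 1 ≤ Real.exp (-1) * Real.exp 1 :=
              mul_le_mul_of_nonneg_right hpe (Real.exp_pos _).le
          _ = 1 := by rw [← Real.exp_add]; simp)
      (by
        intro U hU
        rw [← hρ]
        exact autc_bound H p hp.le h U hU)
      b hb1 hb (supp T).card {x // x ∈ supp T} (gT T) hVc
    rw [← hρ, gT_edges T hT] at this
    exact this
  · push Not at hpe
    have h1 : ((embF (gT T) H).card : ℝ) ≤ (n : ℝ) ^ (supp T).card := by
      have h2 : (embF (gT T) H).card ≤ m ^ (supp T).card := by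
        calc (embF (gT T) H).card ≤ Fintype.card ({x // x ∈ supp T} → Fin m) :=
              Finset.card_le_univ _
          _ = m ^ (supp T).card := by
              rw [← Nat.card_eq_fintype_card, Nat.card_fun, Nat.card_eq_fintype_card,
                Nat.card_eq_fintype_card, Fintype.card_fin, hVc]
      have h3 : m ^ (supp T).card ≤ n ^ (supp T).card := Nat.pow_le_pow_left hmn _
      exact_mod_cast h2.trans h3
    have h4 : 1 ≤ 64 * b * p := by
      have h5 : Real.exp (-1) ≥ 1 / 3 := by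
        rw [Real.exp_neg, ge_iff_le, one_div]
        apply inv_anti₀ (Real.exp_pos 1) exp_one_lt_three.le
      nlinarith
    calc ((embF (gT T) H).card : ℝ) ≤ 1 * (n : ℝ) ^ (supp T).card := by rw [one_mul]; exact h1
      _ ≤ (64 * b * p) ^ T.card * (n : ℝ) ^ (supp T).card := by
          apply mul_le_mul_of_nonneg_right _ (by positivity)
          exact one_le_pow₀ h4

/-- Containment of `H` follows from containment of a placed copy. -/
lemma isContained_of_cop {n m : ℕ} (hmn : m ≤ n) (H : SimpleGraph (Fin m))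
    (σ : Equiv.Perm (Fin n)) (W : Finset (Sym2 (Fin n))) (h : cop hmn H σ ⊆ W) :
    H.IsContained (SimpleGraph.fromEdgeSet (W : Set (Sym2 (Fin n)))) := by
  have hinj : Function.Injective (fun i => σ (Fin.castLE hmn i)) :=
    fun a b h => Fin.castLE_injective hmn (σ.injective h)
  refine ⟨⟨⟨fun i => σ (Fin.castLE hmn i), ?_⟩, hinj⟩⟩
  intro a b hab
  rw [SimpleGraph.fromEdgeSet_adj]
  refine ⟨?_, fun h => hab.ne (hinj h)⟩
  rw [Finset.mem_coe]
  apply h
  unfold cop
  rw [Finset.mem_image]
  exact ⟨s(a, b), mem_eF.mpr hab, by rw [Sym2.map_mk]⟩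

/-- The upper bound on the threshold, for each admissible `p`. -/
lemma threshold_le {n m : ℕ} (hn : 2 ≤ n) (hmn : m ≤ n) (H : SimpleGraph (Fin m)) (p : ℝ)
    (hp : 0 < p)
    (h : ∀ H' : H.Subgraph,
      1 ≤ (n.descFactorial H'.verts.ncard : ℝ) / (Nat.card (H'.coe ≃g H'.coe) : ℝ)
        * p ^ H'.edgeSet.ncard)
    (b : ℝ) (hb1 : 1 ≤ b) (hb : min (Real.log n) (H.maxDegree : ℝ) ≤ b)
    (pc : ℝ) (hpc1 : pc ≤ 1)
    (hpc : gnp n pc (fun G => H.IsContained G) ≤ 1 / 2) :
    pc ≤ (Nat.log 2 H.edgeSet.ncard + 1 : ℝ) * (32 * (64 * b * p * Real.exp 2)) := by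
  by_contra hcon
  push Not at hcon
  have hb0 : 0 < b := by linarith
  set p' : ℝ := (Nat.log 2 H.edgeSet.ncard + 1 : ℝ) * (32 * (64 * b * p * Real.exp 2)) with hp'
  have hp'1 : p' ≤ 1 := (hcon.le).trans hpc1
  have hp'0 : 0 ≤ p' := by positivity
  have hsp := spread (eF (⊤ : SimpleGraph (Fin n))) (fun σ : Equiv.Perm (Fin n) => cop hmn H σ)
    (by
      intro σ e he
      have := cop_notDiag hmn H σ e he
      rw [mem_eF, SimpleGraph.edgeSet_top]
      exact this)
    H.edgeSet.ncard (fun σ => by rw [cop_card, eF_card]) (64 * b * p * Real.exp 2) (by positivity)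
    (fun T => spread_copies hn hmn H p hp h b hb1 hb T) p' le_rfl hp'1
  have h1 : 6 / 7 ≤ gnp n p' (fun G => H.IsContained G) := by
    rw [gnp_eq_exs]
    refine hsp.trans ?_
    apply exs_mono _ hp'0 hp'1
    intro W _
    by_cases hex : ∃ σ, cop hmn H σ ⊆ W
    · obtain ⟨σ, hσ⟩ := hex
      rw [if_pos ⟨σ, hσ⟩, if_pos (isContained_of_cop hmn H σ W hσ)]
    · rw [if_neg hex]
      split_ifs <;> norm_num
  have h2 : gnp n p' (fun G => H.IsContained G) ≤ gnp n pc (fun G => H.IsContained G) := by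
    apply gnp_mono n hp'0 hcon.le hpc1
    intro G G' hGG' hH
    exact hH.trans_le hGG'
  linarith

/-- The set defining the expectation threshold is nonempty and consists of positive numbers. -/
lemma pE_set_pos {n m : ℕ} (H : SimpleGraph (Fin m)) (hH : H ≠ ⊥) (p : ℝ) (hp : 0 ≤ p)
    (h : ∀ H' : H.Subgraph,
      1 ≤ (n.descFactorial H'.verts.ncard : ℝ) / (Nat.card (H'.coe ≃g H'.coe) : ℝ)
        * p ^ H'.edgeSet.ncard) : 0 < p := by
  rcases hp.lt_or_eq with h0 | h0
  · exact h0
  · exfalso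
    have h1 := h ⊤
    have h2 : (⊤ : H.Subgraph).edgeSet.ncard ≠ 0 := by
      rw [SimpleGraph.Subgraph.edgeSet_top, Ne, Set.ncard_eq_zero]
      intro he
      exact hH (SimpleGraph.edgeSet_eq_empty.mp he)
    rw [← h0, zero_pow h2, mul_zero] at h1
    linarith

lemma pE_set_nonempty {n m : ℕ} (hmn : m ≤ n) (H : SimpleGraph (Fin m)) :
    {p : ℝ | 0 ≤ p ∧ p ≤ 1 ∧ ∀ H' : H.Subgraph,
    1 ≤ (n.descFactorial H'.verts.ncard : ℝ) / (Nat.card (H'.coe ≃g H'.coe) : ℝ)
      * p ^ H'.edgeSet.ncard}.Nonempty := by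
  refine ⟨1, by norm_num, le_refl 1, ?_⟩
  intro H'
  rw [one_pow, mul_one]
  have hfin : Finite (H'.coe ≃g H'.coe) := by
    apply Finite.of_injective (fun f => f.toEquiv)
    intro f f' h
    exact RelIso.toEquiv_injective h
  have hne : Nonempty (H'.coe ≃g H'.coe) := ⟨RelIso.refl _⟩
  have hpos : (0 : ℝ) < Nat.card (H'.coe ≃g H'.coe) := by exact_mod_cast Nat.card_pos
  rw [one_le_div hpos]
  have h1 : Nat.card (H'.coe ≃g H'.coe) ≤ Nat.card (Equiv.Perm H'.verts) := by
    apply Nat.card_le_card_of_injective (fun f : (H'.coe ≃g H'.coe) => f.toEquiv)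
    intro f f' h
    exact RelIso.toEquiv_injective h
  have h2 : Nat.card (Equiv.Perm H'.verts) = H'.verts.ncard.factorial := by
    rw [Nat.card_eq_fintype_card, Fintype.card_perm, ← Nat.card_eq_fintype_card,
      Nat.card_coe_set_eq]
  have h3 : H'.verts.ncard ≤ n := by
    calc H'.verts.ncard ≤ (Set.univ : Set (Fin m)).ncard := Set.ncard_le_ncard (Set.subset_univ _)
      _ = m := by rw [Set.ncard_univ, Nat.card_eq_fintype_card, Fintype.card_fin]
      _ ≤ n := hmn
  have h4 : H'.verts.ncard.factorial ≤ n.descFactorial H'.verts.ncard := by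
    rw [← Nat.descFactorial_self]
    exact Nat.descFactorial_le _ h3
  rw [h2] at h1
  exact_mod_cast h1.trans h4

/-- **Upper bound on the threshold.** -/
theorem threshold_le_pE {n m : ℕ} (hn : 2 ≤ n) (hmn : m ≤ n) (H : SimpleGraph (Fin m))
    (hH : H ≠ ⊥) (pc : ℝ) (hpc1 : pc ≤ 1)
    (hpc : gnp n pc (fun G => H.IsContained G) ≤ 1 / 2) :
    pc ≤ 32000 * pE n H * min (H.maxDegree : ℝ) (Real.log n)
      * Real.log (2 * H.edgeSet.ncard) := by
  have hlog2 : 0.69 < Real.log 2 := by have := Real.log_two_gt_d9; linarith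
  have hlog2' : Real.log 2 < 1 := by have := Real.log_two_lt_d9; linarith
  have hlogn : Real.log 2 ≤ Real.log n :=
    Real.log_le_log (by norm_num) (by exact_mod_cast hn)
  have hedge : 1 ≤ H.edgeSet.ncard := by
    rw [Nat.one_le_iff_ne_zero, Ne, Set.ncard_eq_zero]
    intro he
    exact hH (SimpleGraph.edgeSet_eq_empty.mp he)
  have hdeg : 1 ≤ H.maxDegree := by
    by_contra hcon
    have h0 : H.maxDegree = 0 := by omega
    apply hH
    ext a b
    constructor
    · intro hab
      have h1 := SimpleGraph.degree_le_maxDegree H a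
      rw [h0, Nat.le_zero] at h1
      rw [← SimpleGraph.card_neighborFinset_eq_degree, Finset.card_eq_zero] at h1
      have h2 : b ∈ H.neighborFinset a := by
        rw [SimpleGraph.mem_neighborFinset]; exact hab
      rw [h1] at h2
      exact absurd h2 (Finset.notMem_empty _)
    · intro hab
      exact absurd hab (by simp)
  have hdeg' : (1 : ℝ) ≤ H.maxDegree := by exact_mod_cast hdeg
  set B : ℝ := min (H.maxDegree : ℝ) (Real.log n) with hB
  have hBge : Real.log 2 ≤ B := le_min (by linarith) hlogn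
  have hBpos : 0 < B := by linarith
  set b : ℝ := B / Real.log 2 with hb
  have hl2pos : 0 < Real.log 2 := by linarith
  have hb1 : 1 ≤ b := by rw [hb, one_le_div hl2pos]; exact hBge
  have hbB : min (Real.log n) (H.maxDegree : ℝ) ≤ b := by
    rw [min_comm, ← hB, hb, le_div_iff₀ hl2pos]
    nlinarith
  set l : ℕ := H.edgeSet.ncard with hl
  have hl' : (1 : ℝ) ≤ l := by exact_mod_cast hedge
  set Lg : ℝ := Real.log (2 * l) with hLg
  have hLgpos : 0 < Lg := Real.log_pos (by linarith)
  have hround : (Nat.log 2 l + 1 : ℝ) ≤ Lg / Real.log 2 := by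
    rw [le_div_iff₀ hl2pos]
    have h1 : (2 : ℝ) ^ (Nat.log 2 l) ≤ l := by
      exact_mod_cast Nat.pow_log_le_self 2 (by omega)
    have h2 := Real.log_le_log (by positivity) h1
    rw [Real.log_pow] at h2
    rw [hLg, Real.log_mul (by norm_num) (by positivity)]
    linarith
  -- reduce to a single admissible p
  have hC : 0 < 32000 * B * Lg := by positivity
  have hkey : pc / (32000 * B * Lg) ≤ pE n H := by
    unfold pE
    apply le_csInf (pE_set_nonempty hmn H)
    rintro p ⟨hp0, _, hp⟩
    have hppos := pE_set_pos H hH p hp0 hp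
    rw [div_le_iff₀ hC]
    have h1 := threshold_le hn hmn H p hppos hp b hb1 hbB pc hpc1 hpc
    have he2 : Real.exp 2 < 7.4 := by
      have h := Real.exp_one_lt_d9
      have h2 : Real.exp 2 = Real.exp 1 * Real.exp 1 := by rw [← Real.exp_add]; norm_num
      have h0 : 0 < Real.exp 1 := Real.exp_pos 1
      rw [h2]
      nlinarith
    calc pc ≤ (Nat.log 2 l + 1 : ℝ) * (32 * (64 * b * p * Real.exp 2)) := h1
      _ ≤ (Lg / Real.log 2) * (32 * (64 * b * p * 7.4)) := by
          apply mul_le_mul hround _ (by positivity) (by positivity)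
          have : 0 ≤ 64 * b * p := by positivity
          nlinarith
      _ = (15155.2 * (p * B * Lg)) / (Real.log 2 * Real.log 2) := by
          rw [hb]; field_simp; ring
      _ ≤ p * (32000 * B * Lg) := by
          rw [div_le_iff₀ (by positivity)]
          have h3 : 0.476 ≤ Real.log 2 * Real.log 2 := by nlinarith
          have h4 : 0 ≤ p * B * Lg := by positivity
          nlinarith
  rw [div_le_iff₀ hC] at hkey
  calc pc ≤ pE n H * (32000 * B * Lg) := hkey
    _ = 32000 * pE n H * B * Lg := by ring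

end Pool.Agent.TH965
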