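import Mathlib

set_option autoImplicit false
set_option linter.unusedSectionVars false

/-!
# Spread families and random subsets

A self-contained proof, by the fragmentation method, that a spread family of finite sets has a member
inside a random subset of density a logarithmic factor above the spread.
-/

namespace Pool.Agent.TH965.Spread

open Finset

section biased

variable {X : Type*} [DecidableEq X]

/-- Expectation of `f W` for a random subset `W` of `s` that contains each point with probability `p`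
independently. -/
noncomputable def exs (s : Finset X) (p : ℝ) (f : Finset X → ℝ) : ℝ :=
  ∑ W ∈ s.powerset, p ^ W.card * (1 - p) ^ (s.card - W.card) * f W

lemma exs_empty (p : ℝ) (f : Finset X → ℝ) : exs ∅ p f = f ∅ := by
  simp [exs]

lemma exs_insert (s : Finset X) (x : X) (hx : x ∉ s) (p : ℝ) (f : Finset X → ℝ) :
    exs (insert x s) p f = (1 - p) * exs s p f + p * exs s p (fun W => f (insert x W)) := by
  unfold exs
  rw [Finset.sum_powerset_insert hx, Finset.card_insert_of_notMem hx, Finset.mul_sum,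
    Finset.mul_sum]
  congr 1
  · apply Finset.sum_congr rfl
    intro W hW
    have hle : W.card ≤ s.card := Finset.card_le_card (Finset.mem_powerset.mp hW)
    rw [show s.card + 1 - W.card = (s.card - W.card) + 1 by omega, pow_succ]
    ring
  · apply Finset.sum_congr rfl
    intro W hW
    have hxW : x ∉ W := fun h => hx (Finset.mem_powerset.mp hW h)
    rw [Finset.card_insert_of_notMem hxW, Nat.add_sub_add_right, pow_succ]
    ring

lemma exs_add (s : Finset X) (p : ℝ) (f g : Finset X → ℝ) :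
    exs s p (fun W => f W + g W) = exs s p f + exs s p g := by
  unfold exs
  rw [← Finset.sum_add_distrib]
  apply Finset.sum_congr rfl
  intro W _
  ring

lemma exs_mul_left (s : Finset X) (p c : ℝ) (f : Finset X → ℝ) :
    exs s p (fun W => c * f W) = c * exs s p f := by
  unfold exs
  rw [Finset.mul_sum]
  apply Finset.sum_congr rfl
  intro W _
  ring

lemma exs_const (s : Finset X) (p c : ℝ) : exs s p (fun _ => c) = c := by
  induction s using Finset.induction_on with
  | empty => simp [exs]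
  | insert x s hx ih =>
    rw [exs_insert s x hx, ih]; ring

lemma exs_mono (s : Finset X) {p : ℝ} (hp0 : 0 ≤ p) (hp1 : p ≤ 1) {f g : Finset X → ℝ}
    (h : ∀ W, W ⊆ s → f W ≤ g W) : exs s p f ≤ exs s p g := by
  unfold exs
  apply Finset.sum_le_sum
  intro W hW
  apply mul_le_mul_of_nonneg_left (h W (Finset.mem_powerset.mp hW))
  have : 0 ≤ 1 - p := by linarith
  positivity

/-- The union of two independent random subsets. -/
lemma exs_union (s : Finset X) (a b : ℝ) (f : Finset X → ℝ) :
    exs s (a + b - a * b) f = exs s a (fun W₁ => exs s b (fun W₂ => f (W₁ ∪ W₂))) := by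
  induction s using Finset.induction_on generalizing f with
  | empty => simp [exs]
  | insert x s hx ih =>
    rw [exs_insert s x hx, exs_insert s x hx, ih f, ih (fun W => f (insert x W))]
    have e1 : ∀ W₁ : Finset X, exs (insert x s) b (fun W₂ => f (W₁ ∪ W₂))
        = (1 - b) * exs s b (fun W₂ => f (W₁ ∪ W₂))
          + b * exs s b (fun W₂ => f (insert x (W₁ ∪ W₂))) := by
      intro W₁
      rw [exs_insert s x hx]
      simp only [Finset.union_insert]
    have e2 : ∀ W₁ : Finset X, exs (insert x s) b (fun W₂ => f (insert x W₁ ∪ W₂))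
        = exs s b (fun W₂ => f (insert x (W₁ ∪ W₂))) := by
      intro W₁
      rw [exs_insert s x hx]
      simp only [Finset.union_insert, Finset.insert_union, Finset.insert_idem]
      ring
    simp only [e2]
    simp only [e1]
    rw [exs_add, exs_mul_left, exs_mul_left]
    ring

end biased

section rounds

variable {X I : Type*} [DecidableEq X] [DecidableEq I]

/-- The choice of a fragment. -/
lemma exists_frag (G : Finset I) (B : I → Finset X) :
    ∃ fr : Finset X → I → I, ∀ W : Finset X, ∀ i ∈ G, fr W i ∈ G ∧ B (fr W i) ⊆ W ∪ B i ∧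
      ∀ j ∈ G, B j ⊆ W ∪ B i → (B (fr W i) \ W).card ≤ (B j \ W).card := by
  have h : ∀ (W : Finset X) (i : I), ∃ k : I, i ∈ G → (k ∈ G ∧ B k ⊆ W ∪ B i ∧
      ∀ j ∈ G, B j ⊆ W ∪ B i → (B k \ W).card ≤ (B j \ W).card) := by
    intro W i
    by_cases hi : i ∈ G
    · obtain ⟨k, hk, hmin⟩ := Finset.exists_min_image (G.filter (fun j => B j ⊆ W ∪ B i))
        (fun j => (B j \ W).card) ⟨i, by simp [hi]⟩
      rw [Finset.mem_filter] at hk
      refine ⟨k, fun _ => ⟨hk.1, hk.2, fun j hj hj' => hmin j ?_⟩⟩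
      rw [Finset.mem_filter]
      exact ⟨hj, hj'⟩
    · exact ⟨i, fun h => absurd h hi⟩
  choose fr hfr using h
  exact ⟨fr, fun W i hi => hfr W i hi⟩

/-- One round: few indices keep a large fragment. -/
lemma round (s : Finset X) (G : Finset I) (B : I → Finset X) (fr : Finset X → I → I)
    (hfr : ∀ W : Finset X, ∀ i ∈ G, fr W i ∈ G ∧ B (fr W i) ⊆ W ∪ B i ∧
      ∀ j ∈ G, B j ⊆ W ∪ B i → (B (fr W i) \ W).card ≤ (B j \ W).card)
    (hB : ∀ i ∈ G, B i ⊆ s) (r t₀ : ℕ) (hr : ∀ i ∈ G, (B i).card ≤ r)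
    (N q p : ℝ) (hq : 0 ≤ q) (hp0 : 0 < p) (hp1 : p ≤ 1) (hqp : 32 * q ≤ p) (hN : 0 ≤ N)
    (hsp : ∀ T : Finset X, ((G.filter (fun i => T ⊆ B i)).card : ℝ) ≤ q ^ T.card * N) :
    exs s p (fun W => ((G.filter (fun i => t₀ ≤ (B (fr W i) \ W).card)).card : ℝ))
      ≤ 2 ^ r * (1 / 32 : ℝ) ^ t₀ * N := by
  classical
  -- a canonical member inside `Z`
  have hJ : ∀ Z : Finset X, ∃ C : Finset X, C.card ≤ r ∧
      ((∃ i ∈ G, B i ⊆ Z) → ∃ j ∈ G, B j = C ∧ B j ⊆ Z) := by
    intro Z
    by_cases h : ∃ i ∈ G, B i ⊆ Z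
    · obtain ⟨i, hi, hiZ⟩ := h
      exact ⟨B i, hr i hi, fun _ => ⟨i, hi, rfl, hiZ⟩⟩
    · exact ⟨∅, by simp, fun h' => absurd h' h⟩
  choose C hCr hC using hJ
  have hp1' : 0 ≤ 1 - p := by linarith
  -- the target index set
  set w : Finset X → ℝ := fun W => p ^ W.card * (1 - p) ^ (s.card - W.card) with hw
  have hw0 : ∀ W, 0 ≤ w W := fun W => by positivity
  -- left side as a sum over pairs
  have hL : exs s p (fun W => ((G.filter (fun i => t₀ ≤ (B (fr W i) \ W).card)).card : ℝ))
      = ∑ x ∈ (s.powerset ×ˢ G).filter (fun x => t₀ ≤ (B (fr x.1 x.2) \ x.1).card), w x.1 := by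
    rw [Finset.sum_filter, Finset.sum_product]
    unfold exs
    apply Finset.sum_congr rfl
    intro W _
    simp only [← Finset.sum_filter]
    rw [Finset.sum_const, nsmul_eq_mul]
    ring
  -- the map
  set R : Finset (Σ _ : Finset X, Σ _ : Finset X, I) :=
    s.powerset.sigma (fun Z => ((C Z).powerset.filter (fun T => t₀ ≤ T.card ∧ T ⊆ Z)).sigma
      (fun T => G.filter (fun i => T ⊆ B i))) with hR
  set g : Finset X × I → (Σ _ : Finset X, Σ _ : Finset X, I) :=
    fun x => ⟨x.1 ∪ (B (fr x.1 x.2) \ x.1), ⟨B (fr x.1 x.2) \ x.1, x.2⟩⟩ with hg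
  have hgh : ∀ x : Finset X × I, (g x).1 \ (g x).2.1 = x.1 := by
    intro x
    simp only [hg]
    ext y
    simp only [Finset.mem_sdiff, Finset.mem_union]
    tauto
  have hmap : ∀ x ∈ (s.powerset ×ˢ G).filter (fun x => t₀ ≤ (B (fr x.1 x.2) \ x.1).card),
      g x ∈ R := by
    rintro ⟨W, i⟩ hx
    rw [Finset.mem_filter, Finset.mem_product] at hx
    obtain ⟨⟨hW, hi⟩, ht⟩ := hx
    simp only at hW hi ht
    rw [Finset.mem_powerset] at hW
    obtain ⟨h1, h2, h3⟩ := hfr W i hi
    have hTB : B (fr W i) \ W ⊆ B i := by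
      intro y hy
      rw [Finset.mem_sdiff] at hy
      have := h2 hy.1
      rw [Finset.mem_union] at this
      exact this.resolve_left hy.2
    have hfrs : B (fr W i) ⊆ s := hB _ h1
    simp only [hR, hg, Finset.mem_sigma, Finset.mem_filter, Finset.mem_powerset]
    have hZ : ∃ j ∈ G, B j ⊆ W ∪ (B (fr W i) \ W) := ⟨fr W i, h1, by
      intro y hy
      by_cases hyW : y ∈ W
      · exact Finset.mem_union_left _ hyW
      · exact Finset.mem_union_right _ (Finset.mem_sdiff.mpr ⟨hy, hyW⟩)⟩
    obtain ⟨j, hj, hjC, hjZ⟩ := hC (W ∪ (B (fr W i) \ W)) hZ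
    have hjW : B j ⊆ W ∪ B i := hjZ.trans (Finset.union_subset_union_right hTB)
    have hmin := h3 j hj hjW
    have hsub : B j \ W ⊆ B (fr W i) \ W := by
      intro y hy
      rw [Finset.mem_sdiff] at hy
      have := hjZ hy.1
      rw [Finset.mem_union] at this
      exact this.resolve_left hy.2
    have heq : B j \ W = B (fr W i) \ W := Finset.eq_of_subset_of_card_le hsub hmin
    refine ⟨Finset.union_subset hW (Finset.sdiff_subset.trans hfrs), ⟨?_, ht,
      Finset.subset_union_right⟩, hi, hTB⟩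
    rw [← hjC, ← heq]
    exact Finset.sdiff_subset
  have hinj : Set.InjOn g ((s.powerset ×ˢ G).filter
      (fun x => t₀ ≤ (B (fr x.1 x.2) \ x.1).card) : Finset (Finset X × I)) := by
    rintro ⟨W, i⟩ _ ⟨W', i'⟩ _ h
    have h1 : W = W' := by
      have := hgh (W, i)
      rw [h, hgh (W', i')] at this
      exact this.symm
    have h2 : i = i' := by
      have := congrArg (fun z => z.2.2) h
      exact this
    rw [h1, h2]
  have hS1 : ∑ x ∈ (s.powerset ×ˢ G).filter (fun x => t₀ ≤ (B (fr x.1 x.2) \ x.1).card), w x.1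
      ≤ ∑ y ∈ R, w (y.1 \ y.2.1) := by
    have : ∑ x ∈ (s.powerset ×ˢ G).filter (fun x => t₀ ≤ (B (fr x.1 x.2) \ x.1).card), w x.1
        = ∑ y ∈ ((s.powerset ×ˢ G).filter
            (fun x => t₀ ≤ (B (fr x.1 x.2) \ x.1).card)).image g, w (y.1 \ y.2.1) := by
      rw [Finset.sum_image hinj]
      apply Finset.sum_congr rfl
      intro x _
      rw [hgh x]
    rw [this]
    apply Finset.sum_le_sum_of_subset_of_nonneg
    · intro y hy
      rw [Finset.mem_image] at hy
      obtain ⟨x, hx, rfl⟩ := hy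
      exact hmap x hx
    · intro y _ _
      exact hw0 _
  have hS2 : ∑ y ∈ R, w (y.1 \ y.2.1)
      ≤ ∑ Z ∈ s.powerset, w Z * (2 ^ r * (1 / 32 : ℝ) ^ t₀ * N) := by
    rw [hR, Finset.sum_sigma]
    apply Finset.sum_le_sum
    intro Z hZ
    rw [Finset.mem_powerset] at hZ
    rw [Finset.sum_sigma]
    have hterm : ∀ T ∈ (C Z).powerset.filter (fun T => t₀ ≤ T.card ∧ T ⊆ Z),
        ∑ i ∈ G.filter (fun i => T ⊆ B i), w (Z \ T) ≤ w Z * ((1 / 32 : ℝ) ^ t₀ * N) := by
      intro T hT
      rw [Finset.mem_filter] at hT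
      obtain ⟨-, hT1, hT2⟩ := hT
      rw [Finset.sum_const, nsmul_eq_mul]
      have hcard : (Z \ T).card = Z.card - T.card := Finset.card_sdiff_of_subset hT2
      have hTZ : T.card ≤ Z.card := Finset.card_le_card hT2
      have hZs : Z.card ≤ s.card := Finset.card_le_card hZ
      have hw1 : w (Z \ T) * p ^ T.card ≤ w Z := by
        simp only [hw]
        rw [hcard]
        have e1 : p ^ Z.card = p ^ (Z.card - T.card) * p ^ T.card := by
          rw [← pow_add]; congr 1; omega
        have e2 : s.card - (Z.card - T.card) = (s.card - Z.card) + T.card := by omega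
        rw [e1, e2, pow_add]
        have h3 : (1 - p) ^ T.card ≤ 1 := pow_le_one₀ hp1' (by linarith)
        have h4 : 0 ≤ p ^ (Z.card - T.card) * p ^ T.card * (1 - p) ^ (s.card - Z.card) := by
          positivity
        nlinarith [mul_le_mul_of_nonneg_left h3 h4]
      have hq1 : q ^ T.card ≤ p ^ T.card * (1 / 32 : ℝ) ^ t₀ := by
        calc q ^ T.card ≤ (p * (1 / 32)) ^ T.card := by
              apply pow_le_pow_left₀ hq; linarith
          _ = p ^ T.card * (1 / 32 : ℝ) ^ T.card := mul_pow _ _ _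
          _ ≤ p ^ T.card * (1 / 32 : ℝ) ^ t₀ := by
              apply mul_le_mul_of_nonneg_left _ (by positivity)
              exact pow_le_pow_of_le_one (by norm_num) (by norm_num) hT1
      calc ((G.filter (fun i => T ⊆ B i)).card : ℝ) * w (Z \ T)
          ≤ (q ^ T.card * N) * w (Z \ T) := mul_le_mul_of_nonneg_right (hsp T) (hw0 _)
        _ ≤ ((p ^ T.card * (1 / 32 : ℝ) ^ t₀) * N) * w (Z \ T) := by
            apply mul_le_mul_of_nonneg_right _ (hw0 _)
            exact mul_le_mul_of_nonneg_right hq1 hN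
        _ = (w (Z \ T) * p ^ T.card) * ((1 / 32 : ℝ) ^ t₀ * N) := by ring
        _ ≤ w Z * ((1 / 32 : ℝ) ^ t₀ * N) := by
            apply mul_le_mul_of_nonneg_right hw1; positivity
    calc ∑ T ∈ (C Z).powerset.filter (fun T => t₀ ≤ T.card ∧ T ⊆ Z),
          ∑ i ∈ G.filter (fun i => T ⊆ B i), w (Z \ T)
        ≤ ∑ T ∈ (C Z).powerset.filter (fun T => t₀ ≤ T.card ∧ T ⊆ Z),
            w Z * ((1 / 32 : ℝ) ^ t₀ * N) := Finset.sum_le_sum hterm
      _ = (((C Z).powerset.filter (fun T => t₀ ≤ T.card ∧ T ⊆ Z)).card : ℝ)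
            * (w Z * ((1 / 32 : ℝ) ^ t₀ * N)) := by rw [Finset.sum_const, nsmul_eq_mul]
      _ ≤ 2 ^ r * (w Z * ((1 / 32 : ℝ) ^ t₀ * N)) := by
          apply mul_le_mul_of_nonneg_right
          · have h1 : ((C Z).powerset.filter (fun T => t₀ ≤ T.card ∧ T ⊆ Z)).card ≤ 2 ^ r := by
              calc _ ≤ (C Z).powerset.card := Finset.card_filter_le _ _
                _ = 2 ^ (C Z).card := Finset.card_powerset _
                _ ≤ 2 ^ r := Nat.pow_le_pow_right (by norm_num) (hCr Z)
            exact_mod_cast h1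
          · have := hw0 Z
            positivity
      _ = w Z * (2 ^ r * (1 / 32 : ℝ) ^ t₀ * N) := by ring
  have hS3 : ∑ Z ∈ s.powerset, w Z * (2 ^ r * (1 / 32 : ℝ) ^ t₀ * N)
      = 2 ^ r * (1 / 32 : ℝ) ^ t₀ * N := exs_const s p _
  rw [hL]
  exact (hS1.trans hS2).trans hS3.le

/-- The main induction over the levels. -/
lemma rounds (s : Finset X) (q N : ℝ) (hq : 0 < q) (hN : 0 < N) : ∀ r : ℕ,
    ∀ (G : Finset I) (B : I → Finset X),
    (∀ i ∈ G, B i ⊆ s) → (∀ i ∈ G, (B i).card < 2 ^ r) → ((G.card : ℝ) ≤ N) →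
    (∀ T : Finset X, ((G.filter (fun i => T ⊆ B i)).card : ℝ) ≤ q ^ T.card * N) →
    ∀ p : ℝ, r * (32 * q) ≤ p → p ≤ 1 →
    exs s p (fun W => open scoped Classical in if ∃ i ∈ G, B i ⊆ W then (0 : ℝ) else 1)
      ≤ (N - G.card) / N + ∑ j ∈ Finset.range r, (1 / 8 : ℝ) ^ (j + 1) := by
  classical
  intro r
  induction r with
  | zero =>
    intro G B hB hsize hGN hsp p hp0 hp1
    have hp0' : 0 ≤ p := by simpa using hp0
    rw [Finset.range_zero, Finset.sum_empty, add_zero]
    by_cases hG : G.Nonempty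
    · obtain ⟨i, hi⟩ := hG
      have hBi : B i = ∅ := by
        have := hsize i hi
        rw [pow_zero, Nat.lt_one_iff, Finset.card_eq_zero] at this
        exact this
      have h0 : exs s p (fun W => if ∃ i ∈ G, B i ⊆ W then (0 : ℝ) else 1) ≤
          exs s p (fun _ => 0) := by
        apply exs_mono s hp0' hp1
        intro W _
        rw [if_pos ⟨i, hi, by rw [hBi]; exact Finset.empty_subset _⟩]
      rw [exs_const] at h0
      refine h0.trans ?_
      apply div_nonneg _ hN.le
      linarith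
    · rw [Finset.not_nonempty_iff_eq_empty] at hG
      subst hG
      have h0 : exs s p (fun W => if ∃ i ∈ (∅ : Finset I), B i ⊆ W then (0 : ℝ) else 1) ≤
          exs s p (fun _ => 1) := by
        apply exs_mono s hp0' hp1
        intro W _
        split_ifs <;> norm_num
      rw [exs_const] at h0
      refine h0.trans ?_
      simp only [Finset.card_empty, Nat.cast_zero, sub_zero]
      rw [div_self hN.ne']
  | succ r ih =>
    intro G B hB hsize hGN hsp p hp0 hp1
    push_cast at hp0
    set p₀ : ℝ := 32 * q with hp₀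
    have hp₀pos : 0 < p₀ := by positivity
    have hrn : (0 : ℝ) ≤ r := Nat.cast_nonneg r
    have hp₀p : p₀ ≤ p := by nlinarith
    have hp₀1 : p₀ ≤ 1 := hp₀p.trans hp1
    have hppos : 0 ≤ p := hp₀pos.le.trans hp₀p
    obtain ⟨b, hb1, hb2, hb3⟩ : ∃ b : ℝ, r * p₀ ≤ b ∧ b ≤ 1 ∧ p = p₀ + b - p₀ * b := by
      by_cases h1 : p₀ = 1
      · refine ⟨1, ?_, le_refl 1, ?_⟩
        · nlinarith
        · have : p = 1 := le_antisymm hp1 (by rw [← h1]; exact hp₀p)
          rw [this, h1]; ring
      · have h1' : 0 < 1 - p₀ := by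
          rcases lt_or_eq_of_le hp₀1 with h | h
          · linarith
          · exact absurd h h1
        refine ⟨(p - p₀) / (1 - p₀), ?_, ?_, ?_⟩
        · rw [le_div_iff₀ h1']
          have : 0 ≤ r * p₀ * p₀ := by positivity
          nlinarith
        · rw [div_le_one h1']; linarith
        · field_simp
          ring
    have hb0 : 0 ≤ b := by
      have : 0 ≤ r * p₀ := by positivity
      linarith
    obtain ⟨fr, hfr⟩ := exists_frag G B
    have hround := round s G B fr hfr hB (2 ^ (r + 1)) (2 ^ r) (fun i hi => (hsize i hi).le)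
      N q p₀ hq.le hp₀pos hp₀1 le_rfl hN.le hsp
    have hconst : (2 : ℝ) ^ (2 ^ (r + 1)) * (1 / 32 : ℝ) ^ (2 ^ r) ≤ (1 / 8 : ℝ) ^ (r + 1) := by
      have e1 : (2 : ℝ) ^ (2 ^ (r + 1)) = 4 ^ (2 ^ r) := by
        rw [pow_succ 2 r, mul_comm (2 ^ r) 2, pow_mul]; norm_num
      rw [e1, ← mul_pow]
      norm_num only
      apply pow_le_pow_of_le_one (by norm_num) (by norm_num)
      exact Nat.lt_two_pow_self
    rw [hb3, exs_union]
    have hinner : ∀ W₁ : Finset X, W₁ ⊆ s →
        exs s b (fun W₂ => if ∃ i ∈ G, B i ⊆ W₁ ∪ W₂ then (0 : ℝ) else 1)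
          ≤ ((N - G.card) / N + ∑ j ∈ Finset.range r, (1 / 8 : ℝ) ^ (j + 1))
            + (1 / N) * ((G.filter (fun i => 2 ^ r ≤ (B (fr W₁ i) \ W₁).card)).card : ℝ) := by
      intro W₁ hW₁
      set G' : Finset I := G.filter (fun i => ¬ 2 ^ r ≤ (B (fr W₁ i) \ W₁).card) with hG'
      set B' : I → Finset X := fun i => B (fr W₁ i) \ W₁ with hB'
      have hsubB : ∀ i ∈ G, B' i ⊆ B i := by
        intro i hi y hy
        simp only [hB', Finset.mem_sdiff] at hy
        have := (hfr W₁ i hi).2.1 hy.1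
        rw [Finset.mem_union] at this
        exact this.resolve_left hy.2
      have hG'G : G' ⊆ G := Finset.filter_subset _ _
      have hcard : (G'.card : ℝ)
          = G.card - ((G.filter (fun i => 2 ^ r ≤ (B (fr W₁ i) \ W₁).card)).card : ℝ) := by
        have := Finset.card_filter_add_card_filter_not (s := G)
          (fun i => 2 ^ r ≤ (B (fr W₁ i) \ W₁).card)
        rw [← this]
        push_cast
        ring
      have hih := ih G' B' (fun i hi => (hsubB i (hG'G hi)).trans (hB i (hG'G hi)))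
        (fun i hi => by
          rw [hG', Finset.mem_filter] at hi
          exact not_le.mp hi.2)
        (by
          have : (G'.card : ℝ) ≤ G.card := by exact_mod_cast Finset.card_le_card hG'G
          linarith)
        (fun T => by
          refine le_trans ?_ (hsp T)
          have : (G'.filter (fun i => T ⊆ B' i)).card ≤ (G.filter (fun i => T ⊆ B i)).card := by
            apply Finset.card_le_card
            intro i hi
            rw [Finset.mem_filter] at hi ⊢
            exact ⟨hG'G hi.1, hi.2.trans (hsubB i (hG'G hi.1))⟩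
          exact_mod_cast this)
        b hb1 hb2
      have hle : exs s b (fun W₂ => if ∃ i ∈ G, B i ⊆ W₁ ∪ W₂ then (0 : ℝ) else 1)
          ≤ exs s b (fun W => if ∃ i ∈ G', B' i ⊆ W then (0 : ℝ) else 1) := by
        apply exs_mono s hb0 hb2
        intro W₂ _
        by_cases h : ∃ i ∈ G', B' i ⊆ W₂
        · have h' : ∃ i ∈ G, B i ⊆ W₁ ∪ W₂ := by
            obtain ⟨i, hi, hiW⟩ := h
            refine ⟨fr W₁ i, (hfr W₁ i (hG'G hi)).1, ?_⟩
            intro y hy
            by_cases hyW : y ∈ W₁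
            · exact Finset.mem_union_left _ hyW
            · exact Finset.mem_union_right _ (hiW (Finset.mem_sdiff.mpr ⟨hy, hyW⟩))
          rw [if_pos h, if_pos h']
        · rw [if_neg h]
          split_ifs <;> norm_num
      refine (hle.trans hih).trans (le_of_eq ?_)
      rw [hcard]
      field_simp
      ring
    have hfin : exs s p₀ (fun W₁ =>
        exs s b (fun W₂ => if ∃ i ∈ G, B i ⊆ W₁ ∪ W₂ then (0 : ℝ) else 1))
        ≤ exs s p₀ (fun W₁ =>
          ((N - G.card) / N + ∑ j ∈ Finset.range r, (1 / 8 : ℝ) ^ (j + 1))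
            + (1 / N) * ((G.filter (fun i => 2 ^ r ≤ (B (fr W₁ i) \ W₁).card)).card : ℝ)) :=
      exs_mono s hp₀pos.le hp₀1 hinner
    refine hfin.trans ?_
    rw [exs_add, exs_const, exs_mul_left, Finset.sum_range_succ, ← add_assoc]
    apply add_le_add le_rfl
    calc (1 / N) * exs s p₀ (fun W => ((G.filter
            (fun i => 2 ^ r ≤ (B (fr W i) \ W).card)).card : ℝ))
        ≤ (1 / N) * (2 ^ (2 ^ (r + 1)) * (1 / 32 : ℝ) ^ (2 ^ r) * N) := by
          apply mul_le_mul_of_nonneg_left hround; positivity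
      _ = 2 ^ (2 ^ (r + 1)) * (1 / 32 : ℝ) ^ (2 ^ r) := by field_simp
      _ ≤ (1 / 8 : ℝ) ^ (r + 1) := hconst

end rounds

/-- **Spread families.** If every set `T` is contained in at most a `q ^ |T|` proportion of the sets
`A i`, all of size at most `l`, then a random set of density `p ≥ 32 q (log₂ l + 1)` contains one of
the `A i` with probability at least `6 / 7`. -/
theorem spread {X I : Type*} [DecidableEq X] [Fintype I] [Nonempty I]
    (s : Finset X) (A : I → Finset X) (hA : ∀ i, A i ⊆ s) (l : ℕ) (hl : ∀ i, (A i).card ≤ l)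
    (q : ℝ) (hq : 0 < q)
    (hsp : ∀ T : Finset X, (Nat.card {i : I // T ⊆ A i} : ℝ) ≤ q ^ T.card * Fintype.card I)
    (p : ℝ) (hp : (Nat.log 2 l + 1 : ℝ) * (32 * q) ≤ p) (hp1 : p ≤ 1) :
    6 / 7 ≤ exs s p (fun W => open scoped Classical in if ∃ i, A i ⊆ W then (1 : ℝ) else 0) := by
  classical
  have hN : (0 : ℝ) < Fintype.card I := by exact_mod_cast Fintype.card_pos
  have h := rounds s q (Fintype.card I) hq hN (Nat.log 2 l + 1) (Finset.univ : Finset I) A
    (fun i _ => hA i) (fun i _ => lt_of_le_of_lt (hl i) (Nat.lt_pow_succ_log_self (by norm_num) l))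
    (by rw [Finset.card_univ]) (fun T => by
      refine le_trans (le_of_eq ?_) (hsp T)
      rw [Nat.card_eq_fintype_card, Fintype.card_subtype]) p (by push_cast; exact hp) hp1
  rw [Finset.card_univ, sub_self, zero_div, zero_add] at h
  have hgeo : ∑ j ∈ Finset.range (Nat.log 2 l + 1), (1 / 8 : ℝ) ^ (j + 1) ≤ 1 / 7 := by
    have : ∀ k : ℕ, ∑ j ∈ Finset.range k, (1 / 8 : ℝ) ^ (j + 1)
        = 1 / 7 - (1 / 7) * (1 / 8 : ℝ) ^ k := by
      intro k
      induction k with
      | zero => simp
      | succ k ih => rw [Finset.sum_range_succ, ih, pow_succ]; ring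
    rw [this]
    have : (0 : ℝ) ≤ (1 / 7) * (1 / 8 : ℝ) ^ (Nat.log 2 l + 1) := by positivity
    linarith
  have hsum : exs s p (fun W => if ∃ i, A i ⊆ W then (1 : ℝ) else 0)
      + exs s p (fun W => if ∃ i ∈ (Finset.univ : Finset I), A i ⊆ W then (0 : ℝ) else 1) = 1 := by
    rw [← exs_add]
    refine Eq.trans ?_ (exs_const s p 1)
    congr 1
    funext W
    by_cases h' : ∃ i, A i ⊆ W
    · rw [if_pos h', if_pos (by simpa using h')]; norm_num
    · rw [if_neg h', if_neg (by simpa using h')]; norm_num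
  linarith

end Pool.Agent.TH965.Spread
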