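import Pool.Agent.TH965.Emb3
import Pool.Agent.TH965.Spread

set_option autoImplicit false
set_option linter.unusedSectionVars false

/-!
# A random copy of `H` is spread
-/

namespace Pool.Agent.TH965.Copy

open Finset
open scoped Classical
open Pool.Agent.TH965.Emb

/-- Permutations with prescribed values on the image of an injection. -/
lemma card_perm_prescribed {V α : Type} [Fintype V] [Fintype α] (f g : V → α)
    (hf : Function.Injective f) :
    (Finset.univ.filter (fun σ : Equiv.Perm α => ∀ x, σ (f x) = g x)).card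
      ≤ (Fintype.card α - Fintype.card V).factorial := by
  by_cases hne : (Finset.univ.filter (fun σ : Equiv.Perm α => ∀ x, σ (f x) = g x)).Nonempty
  swap
  · rw [Finset.not_nonempty_iff_eq_empty] at hne
    rw [hne, Finset.card_empty]
    exact Nat.zero_le _
  obtain ⟨σ₀, h₀⟩ := hne
  rw [Finset.mem_filter] at h₀
  have hsub : (Finset.univ.filter (fun τ : Equiv.Perm α => ∀ a, ¬ (a ∉ Set.range f) → τ a = a)).card
      = (Fintype.card α - Fintype.card V).factorial := by
    rw [← Fintype.card_subtype,
      ← Fintype.card_congr (Equiv.Perm.subtypeEquivSubtypePerm (fun a : α => a ∉ Set.range f)),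
      Fintype.card_perm]
    congr 1
    rw [Fintype.card_subtype_compl]
    congr 1
    rw [← Set.card_range_of_injective hf]
  rw [← hsub]
  apply Finset.card_le_card_of_injOn (fun σ => σ₀⁻¹ * σ)
  · intro σ hσ
    rw [Finset.mem_coe, Finset.mem_filter] at hσ ⊢
    refine ⟨Finset.mem_univ _, ?_⟩
    intro a ha
    rw [not_not] at ha
    obtain ⟨x, rfl⟩ := ha
    rw [Equiv.Perm.mul_apply, hσ.2 x, ← h₀.2 x]
    exact Equiv.symm_apply_apply σ₀ (f x)
  · intro σ _ σ' _ h
    exact mul_left_cancel h

lemma natCard_perm_prescribed {V α : Type} [Fintype V] [Fintype α] (f g : V → α)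
    (hf : Function.Injective f) :
    Nat.card {σ : Equiv.Perm α // ∀ x, σ (f x) = g x}
      ≤ (Nat.card α - Nat.card V).factorial := by
  have h := card_perm_prescribed f g hf
  rw [← Fintype.card_subtype, ← Nat.card_eq_fintype_card, ← Nat.card_eq_fintype_card,
    ← Nat.card_eq_fintype_card] at h
  exact h

/-- `n ^ v ≤ e ^ v (n)_v`. -/
lemma pow_le_exp_mul_descFactorial (n v : ℕ) (hv : v ≤ n) :
    (n : ℝ) ^ v ≤ Real.exp v * (n.descFactorial v : ℝ) := by
  have h1 : (n : ℝ) ^ v * (v.factorial : ℝ) ≤ (v : ℝ) ^ v * (n.descFactorial v : ℝ) := by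
    rw [← Nat.descFactorial_self v, Nat.descFactorial_eq_prod_range, Nat.descFactorial_eq_prod_range]
    push_cast
    have e1 : (n : ℝ) ^ v = ∏ _i ∈ Finset.range v, (n : ℝ) := by
      rw [Finset.prod_const, Finset.card_range]
    have e2 : (v : ℝ) ^ v = ∏ _i ∈ Finset.range v, (v : ℝ) := by
      rw [Finset.prod_const, Finset.card_range]
    rw [e1, e2, ← Finset.prod_mul_distrib, ← Finset.prod_mul_distrib]
    apply Finset.prod_le_prod
    · intro i _; positivity
    · intro i hi
      rw [Finset.mem_range] at hi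
      have : n * (v - i) ≤ v * (n - i) := by
        rw [Nat.mul_sub, Nat.mul_sub, mul_comm v n]
        apply Nat.sub_le_sub_left
        exact Nat.mul_le_mul_right i hv
      exact_mod_cast this
  have h2 : (v : ℝ) ^ v ≤ Real.exp v * (v.factorial : ℝ) := by
    have := Real.pow_div_factorial_le_exp (v : ℝ) (Nat.cast_nonneg v) v
    rwa [div_le_iff₀ (by positivity)] at this
  have h3 : (0 : ℝ) < v.factorial := by exact_mod_cast Nat.factorial_pos v
  have h4 : (0 : ℝ) ≤ n.descFactorial v := Nat.cast_nonneg _
  have h5 : (n : ℝ) ^ v * (v.factorial : ℝ)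
      ≤ (Real.exp v * (n.descFactorial v : ℝ)) * (v.factorial : ℝ) := by
    calc _ ≤ (v : ℝ) ^ v * (n.descFactorial v : ℝ) := h1
      _ ≤ (Real.exp v * (v.factorial : ℝ)) * (n.descFactorial v : ℝ) :=
          mul_le_mul_of_nonneg_right h2 h4
      _ = _ := by ring
  exact le_of_mul_le_mul_right h5 h3

/-- The graph on the support of `T` with edge set `T`. -/
def gT {n : ℕ} (T : Finset (Sym2 (Fin n))) : SimpleGraph {x // x ∈ supp T} where
  Adj a b := a ≠ b ∧ s(a.1, b.1) ∈ T
  symm := ⟨fun a b h => ⟨h.1.symm, by rw [Sym2.eq_swap]; exact h.2⟩⟩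
  loopless := ⟨fun a h => h.1 rfl⟩

lemma gT_edges {n : ℕ} (T : Finset (Sym2 (Fin n))) (hT : ∀ e ∈ T, ¬ e.IsDiag) :
    (eF (gT T)).card = T.card := by
  apply Finset.card_bij (fun e _ => Sym2.map Subtype.val e)
  · intro e he
    rw [mem_eF] at he
    induction e using Sym2.ind with
    | _ a b =>
      rw [Sym2.map_mk]
      exact he.2
  · intro e _ e' _ h
    exact Sym2.map.injective Subtype.val_injective h
  · intro e he
    induction e using Sym2.ind with
    | _ a b =>
      have ha : a ∈ supp T := mem_supp.mpr ⟨_, he, Sym2.mem_mk_left _ _⟩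
      have hb : b ∈ supp T := mem_supp.mpr ⟨_, he, Sym2.mem_mk_right _ _⟩
      refine ⟨s(⟨a, ha⟩, ⟨b, hb⟩), ?_, by rw [Sym2.map_mk]⟩
      rw [mem_eF, SimpleGraph.mem_edgeSet]
      refine ⟨?_, he⟩
      intro h
      have hab : a = b := congrArg Subtype.val h
      apply hT _ he
      rw [hab]
      exact rfl

lemma supp_card_le {n : ℕ} (T : Finset (Sym2 (Fin n))) : (supp T).card ≤ 2 * T.card := by
  have h1 : supp T ⊆ T.biUnion (fun e => Finset.univ.filter (fun x => x ∈ e)) := by
    intro x hx
    obtain ⟨e, he, hxe⟩ := mem_supp.mp hx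
    rw [Finset.mem_biUnion]
    exact ⟨e, he, Finset.mem_filter.mpr ⟨Finset.mem_univ _, hxe⟩⟩
  calc _ ≤ _ := Finset.card_le_card h1
    _ ≤ T.card * 2 := by
        apply Finset.card_biUnion_le_card_mul
        intro e _
        induction e using Sym2.ind with
        | _ a b =>
          calc (Finset.univ.filter (fun x => x ∈ s(a, b))).card
              ≤ ({a, b} : Finset (Fin n)).card := by
                apply Finset.card_le_card
                intro x hx
                rw [Finset.mem_filter, Sym2.mem_iff] at hx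
                rw [Finset.mem_insert, Finset.mem_singleton]
                exact hx.2
            _ ≤ 2 := Finset.card_le_two
    _ = 2 * T.card := mul_comm _ _

/-- The edge set of the copy of `H` placed by the permutation `σ`. -/
noncomputable def cop {n m : ℕ} (hmn : m ≤ n) (H : SimpleGraph (Fin m)) (σ : Equiv.Perm (Fin n)) :
    Finset (Sym2 (Fin n)) :=
  (eF H).image (Sym2.map (fun i => σ (Fin.castLE hmn i)))

lemma cop_card {n m : ℕ} (hmn : m ≤ n) (H : SimpleGraph (Fin m)) (σ : Equiv.Perm (Fin n)) :
    (cop hmn H σ).card = (eF H).card := by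
  unfold cop
  apply Finset.card_image_of_injective
  apply Sym2.map.injective
  intro a b h
  exact Fin.castLE_injective hmn (σ.injective h)

lemma cop_notDiag {n m : ℕ} (hmn : m ≤ n) (H : SimpleGraph (Fin m)) (σ : Equiv.Perm (Fin n)) :
    ∀ e ∈ cop hmn H σ, ¬ e.IsDiag := by
  intro e he
  unfold cop at he
  rw [Finset.mem_image] at he
  obtain ⟨e', he', rfl⟩ := he
  rw [mem_eF] at he'
  induction e' using Sym2.ind with
  | _ a b =>
    rw [Sym2.map_mk, Sym2.mk_isDiag_iff]
    intro h
    have := Fin.castLE_injective hmn (σ.injective h)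
    exact he'.ne this

/-- The number of copies through `T`. -/
lemma card_through {n m : ℕ} (hmn : m ≤ n) (H : SimpleGraph (Fin m)) (T : Finset (Sym2 (Fin n)))
    (c : ℝ)
    (hc : ((embF (gT T) H).card : ℝ) ≤ c ^ T.card * (n : ℝ) ^ (supp T).card) :
    ((Finset.univ.filter (fun σ : Equiv.Perm (Fin n) => T ⊆ cop hmn H σ)).card : ℝ)
      ≤ (c * Real.exp 2) ^ T.card * (Fintype.card (Equiv.Perm (Fin n)) : ℝ) := by
  have hc0 : 0 ≤ c ^ T.card * (n : ℝ) ^ (supp T).card := le_trans (Nat.cast_nonneg _) hc
  set v := (supp T).card with hv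
  have hvn : v ≤ n := by
    have := Finset.card_le_univ (supp T)
    simpa using this
  have hsub : Finset.univ.filter (fun σ : Equiv.Perm (Fin n) => T ⊆ cop hmn H σ)
      ⊆ (embF (gT T) H).biUnion (fun ψ => Finset.univ.filter
        (fun σ : Equiv.Perm (Fin n) => ∀ x, σ (Fin.castLE hmn (ψ x)) = x.1)) := by
    intro σ hσ
    rw [Finset.mem_filter] at hσ
    have hT := hσ.2
    have hex : ∀ x : {x // x ∈ supp T}, ∃ y : Fin m, σ (Fin.castLE hmn y) = x.1 := by
      intro x
      obtain ⟨e, he, hxe⟩ := mem_supp.mp x.2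
      have h1 := hT he
      unfold cop at h1
      rw [Finset.mem_image] at h1
      obtain ⟨e', -, rfl⟩ := h1
      rw [Sym2.mem_map] at hxe
      obtain ⟨y, -, hy⟩ := hxe
      exact ⟨y, hy⟩
    choose ψ hψ using hex
    rw [Finset.mem_biUnion]
    refine ⟨ψ, ?_, Finset.mem_filter.mpr ⟨Finset.mem_univ _, hψ⟩⟩
    rw [mem_embF]
    have hinj : Function.Injective (fun i => σ (Fin.castLE hmn i)) :=
      fun a b h => Fin.castLE_injective hmn (σ.injective h)
    refine ⟨?_, ?_⟩
    · intro a b h
      apply Subtype.ext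
      rw [← hψ a, ← hψ b, h]
    · intro a b hab
      have h1 := hT hab.2
      unfold cop at h1
      rw [Finset.mem_image] at h1
      obtain ⟨e', he', heq⟩ := h1
      rw [mem_eF] at he'
      have h2 : Sym2.map (fun i => σ (Fin.castLE hmn i)) e'
          = Sym2.map (fun i => σ (Fin.castLE hmn i)) s(ψ a, ψ b) := by
        rw [heq, Sym2.map_mk, hψ a, hψ b]
      have h3 := Sym2.map.injective hinj h2
      rw [h3] at he'
      exact he'
  have hcount : ∀ ψ ∈ embF (gT T) H, (Finset.univ.filter
        (fun σ : Equiv.Perm (Fin n) => ∀ x, σ (Fin.castLE hmn (ψ x)) = x.1)).card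
      ≤ (n - v).factorial := by
    intro ψ hψ
    rw [mem_embF] at hψ
    have hinjψ : Function.Injective (fun x : {x // x ∈ supp T} => Fin.castLE hmn (ψ x)) :=
      fun a b h => hψ.1 (Fin.castLE_injective hmn h)
    have hthis := natCard_perm_prescribed (V := {x // x ∈ supp T}) (α := Fin n)
      (fun x => Fin.castLE hmn (ψ x)) (fun x => x.1) hinjψ
    have hcv : Nat.card (Fin n) - Nat.card {x // x ∈ supp T} = n - v := by
      rw [Nat.card_eq_fintype_card, Nat.card_eq_fintype_card, Fintype.card_fin, Fintype.card_coe]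
    rw [hcv] at hthis
    rw [← Fintype.card_subtype, ← Nat.card_eq_fintype_card]
    exact hthis
  have h1 : (Finset.univ.filter (fun σ : Equiv.Perm (Fin n) => T ⊆ cop hmn H σ)).card
      ≤ (embF (gT T) H).card * (n - v).factorial :=
    (Finset.card_le_card hsub).trans (Finset.card_biUnion_le_card_mul _ _ _ hcount)
  have hT0 : 0 ≤ c ^ T.card := by
    by_cases hn : n = 0
    · subst hn
      have : T.card = 0 := by
        rw [Finset.card_eq_zero, Finset.eq_empty_iff_forall_notMem]
        intro e
        induction e using Sym2.ind with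
        | _ a b => exact a.elim0
      rw [this]; simp
    · have : (0 : ℝ) < (n : ℝ) ^ v := by positivity
      by_contra hneg
      push Not at hneg
      nlinarith
  calc ((Finset.univ.filter (fun σ : Equiv.Perm (Fin n) => T ⊆ cop hmn H σ)).card : ℝ)
      ≤ (((embF (gT T) H).card * (n - v).factorial : ℕ) : ℝ) := by exact_mod_cast h1
    _ = ((embF (gT T) H).card : ℝ) * ((n - v).factorial : ℝ) := by push_cast; ring
    _ ≤ (c ^ T.card * (n : ℝ) ^ v) * ((n - v).factorial : ℝ) :=
        mul_le_mul_of_nonneg_right hc (Nat.cast_nonneg _)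
    _ ≤ (c ^ T.card * (Real.exp v * (n.descFactorial v : ℝ))) * ((n - v).factorial : ℝ) := by
        apply mul_le_mul_of_nonneg_right _ (Nat.cast_nonneg _)
        exact mul_le_mul_of_nonneg_left (pow_le_exp_mul_descFactorial n v hvn) hT0
    _ = c ^ T.card * Real.exp v * (((n - v).factorial * n.descFactorial v : ℕ) : ℝ) := by
        push_cast; ring
    _ = c ^ T.card * Real.exp v * (n.factorial : ℝ) := by
        rw [Nat.factorial_mul_descFactorial hvn]
    _ ≤ c ^ T.card * (Real.exp 2) ^ T.card * (n.factorial : ℝ) := by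
        apply mul_le_mul_of_nonneg_right _ (Nat.cast_nonneg _)
        apply mul_le_mul_of_nonneg_left _ hT0
        rw [← Real.exp_nat_mul]
        apply Real.exp_le_exp.mpr
        have : (v : ℝ) ≤ ((2 * T.card : ℕ) : ℝ) := by exact_mod_cast supp_card_le T
        push_cast at this
        linarith
    _ = _ := by
        rw [← mul_pow, Fintype.card_perm, Fintype.card_fin]

end Pool.Agent.TH965.Copy
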