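import Mathlib

set_option autoImplicit false
set_option linter.unusedSectionVars false

/-!
# Counting embeddings of a graph `S` into a graph `H` with few automorphisms of sparse pieces

Notation: `IsEmb S H φ` says that `φ` is an injective homomorphism; `tE S Y` are the edges of `S` that
touch the vertex set `Y`; `supp U` is the set of ends of the edges in `U`; `autc U` is the number of
permutations that preserve the edge set `U` and move only vertices in `supp U`.
-/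

namespace Pool.Agent.TH965.Emb

open Finset
open scoped Classical

section defs

variable {V W : Type} [Fintype V] [Fintype W]

/-- `φ` is an injective homomorphism from `S` to `H`. -/
def IsEmb (S : SimpleGraph V) (H : SimpleGraph W) (φ : V → W) : Prop :=
  Function.Injective φ ∧ ∀ a b, S.Adj a b → H.Adj (φ a) (φ b)

/-- The edges of `S`. -/
noncomputable def eF (S : SimpleGraph V) : Finset (Sym2 V) :=
  Finset.univ.filter (fun e => e ∈ S.edgeSet)

/-- The edges of `S` that touch `Y`. -/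
noncomputable def tE (S : SimpleGraph V) (Y : Finset V) : Finset (Sym2 V) :=
  Finset.univ.filter (fun e => e ∈ S.edgeSet ∧ ∃ y ∈ Y, y ∈ e)

/-- The edges of `S` inside `Y`. -/
noncomputable def iE (S : SimpleGraph V) (Y : Finset V) : Finset (Sym2 V) :=
  Finset.univ.filter (fun e => e ∈ S.edgeSet ∧ ∀ y ∈ e, y ∈ Y)

/-- The outer boundary of `Y`. -/
noncomputable def bd (S : SimpleGraph V) (Y : Finset V) : Finset V :=
  Finset.univ.filter (fun w => w ∉ Y ∧ ∃ y ∈ Y, S.Adj y w)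

/-- The set of ends of the edges in `U`. -/
noncomputable def supp (U : Finset (Sym2 W)) : Finset W :=
  Finset.univ.filter (fun w => ∃ e ∈ U, w ∈ e)

/-- The number of permutations preserving `U` and fixing everything outside its support. -/
noncomputable def autc (U : Finset (Sym2 W)) : ℕ :=
  Nat.card {g : Equiv.Perm W // (∀ w, w ∉ supp U → g w = w) ∧ ∀ e ∈ U, Sym2.map g e ∈ U}

/-- Union of the images of `Y`. -/
noncomputable def Fim (Q : Finset (V → W)) (Y : Finset V) : Finset W :=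
  Q.biUnion (fun φ => Y.image φ)

/-- Union of the images of the edges touching `Y`. -/
noncomputable def Uim (S : SimpleGraph V) (Q : Finset (V → W)) (Y : Finset V) : Finset (Sym2 W) :=
  Q.biUnion (fun φ => (tE S Y).image (Sym2.map φ))

lemma mem_eF {S : SimpleGraph V} {e : Sym2 V} : e ∈ eF S ↔ e ∈ S.edgeSet := by simp [eF]

lemma mem_tE {S : SimpleGraph V} {Y : Finset V} {e : Sym2 V} :
    e ∈ tE S Y ↔ e ∈ S.edgeSet ∧ ∃ y ∈ Y, y ∈ e := by simp [tE]

lemma mem_iE {S : SimpleGraph V} {Y : Finset V} {e : Sym2 V} :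
    e ∈ iE S Y ↔ e ∈ S.edgeSet ∧ ∀ y ∈ e, y ∈ Y := by simp [iE]

lemma mem_bd {S : SimpleGraph V} {Y : Finset V} {w : V} :
    w ∈ bd S Y ↔ w ∉ Y ∧ ∃ y ∈ Y, S.Adj y w := by simp [bd]

lemma mem_supp {U : Finset (Sym2 W)} {w : W} : w ∈ supp U ↔ ∃ e ∈ U, w ∈ e := by simp [supp]

lemma mem_Fim {Q : Finset (V → W)} {Y : Finset V} {w : W} :
    w ∈ Fim Q Y ↔ ∃ φ ∈ Q, ∃ y ∈ Y, φ y = w := by simp [Fim]

lemma mem_Uim {S : SimpleGraph V} {Q : Finset (V → W)} {Y : Finset V} {e : Sym2 W} :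
    e ∈ Uim S Q Y ↔ ∃ φ ∈ Q, ∃ e' ∈ tE S Y, Sym2.map φ e' = e := by simp [Uim]

lemma tE_mono {S : SimpleGraph V} {Y Y' : Finset V} (h : Y ⊆ Y') : tE S Y ⊆ tE S Y' := by
  intro e he
  rw [mem_tE] at he ⊢
  obtain ⟨h1, y, hy, hye⟩ := he
  exact ⟨h1, y, h hy, hye⟩

lemma IsEmb.map_mem {S : SimpleGraph V} {H : SimpleGraph W} {φ : V → W} (h : IsEmb S H φ)
    {e : Sym2 V} (he : e ∈ S.edgeSet) : Sym2.map φ e ∈ H.edgeSet := by
  induction e using Sym2.ind with
  | _ a b =>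
    rw [Sym2.map_mk, SimpleGraph.mem_edgeSet]
    exact h.2 a b he

lemma one_le_autc (U : Finset (Sym2 W)) : 1 ≤ autc U := by
  unfold autc
  rw [Nat.one_le_iff_ne_zero, Nat.card_ne_zero]
  refine ⟨⟨⟨1, fun w _ => rfl, fun e he => ?_⟩⟩, inferInstance⟩
  have : (⇑(1 : Equiv.Perm W)) = id := rfl
  rw [this, Sym2.map_id]
  exact he

/-- An edge touching `Y` with an end outside `Y` joins it to `Y`. -/
lemma adj_of_mem_tE {S : SimpleGraph V} {Y : Finset V} {e : Sym2 V} (he : e ∈ tE S Y) {v : V}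
    (hv : v ∈ e) (hvY : v ∉ Y) : ∃ y ∈ Y, S.Adj y v ∧ e = s(y, v) := by
  rw [mem_tE] at he
  obtain ⟨h1, y, hy, hye⟩ := he
  have hne : y ≠ v := fun h => hvY (h ▸ hy)
  have := (Sym2.mem_and_mem_iff hne).mp ⟨hye, hv⟩
  refine ⟨y, hy, ?_, this⟩
  rw [this] at h1
  exact h1

end defs

section closure

variable {V W : Type} [Fintype V] [Fintype W]

/-- Values at points outside `Y` are not values at points of `Y`. -/
lemma notMem_Fim {S : SimpleGraph V} {H : SimpleGraph W} {Y : Finset V} {Q : Finset (V → W)}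
    (hemb : ∀ φ ∈ Q, IsEmb S H φ)
    (hagree : ∀ φ ∈ Q, ∀ φ' ∈ Q, ∀ v, v ∉ Y → φ v = φ' v)
    {φ₀ : V → W} (h₀ : φ₀ ∈ Q) {v : V} (hv : v ∉ Y) : φ₀ v ∉ Fim Q Y := by
  rw [mem_Fim]
  rintro ⟨φ, hφ, y, hy, h⟩
  rw [hagree φ₀ h₀ φ hφ v hv] at h
  exact hv ((hemb φ hφ).1 h ▸ hy)

lemma closure_le (S : SimpleGraph V) (H : SimpleGraph W) (Y : Finset V) (n : ℕ) (hn : 1 ≤ n)
    (ρ : ℝ) (hρ0 : 0 ≤ ρ) (hρ1 : ρ ≤ 1)
    (hun : ∀ Y' ⊆ Y, (n : ℝ) ^ Y'.card * ρ ^ (tE S Y').card ≤ 1)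
    (Q : Finset (V → W)) : (∀ φ ∈ Q, IsEmb S H φ) →
    (∀ φ ∈ Q, ∀ φ' ∈ Q, ∀ v, v ∉ Y → φ v = φ' v) →
    (n : ℝ) ^ (Fim Q Y).card * ρ ^ (Uim S Q Y).card ≤ 1 := by
  have hn' : (1 : ℝ) ≤ n := by exact_mod_cast hn
  induction Q using Finset.induction_on with
  | empty => intro _ _; simp [Fim, Uim]
  | insert φ Q hφ ih =>
    intro hemb hagree
    have ih' := ih (fun ψ hψ => hemb ψ (Finset.mem_insert_of_mem hψ))
      (fun ψ hψ ψ' hψ' => hagree ψ (Finset.mem_insert_of_mem hψ) ψ' (Finset.mem_insert_of_mem hψ'))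
    set Y₁ : Finset V := Y.filter (fun y => φ y ∉ Fim Q Y) with hY₁
    have hY₁Y : Y₁ ⊆ Y := Finset.filter_subset _ _
    have hF : (Fim (insert φ Q) Y).card ≤ (Fim Q Y).card + Y₁.card := by
      have hsub : Fim (insert φ Q) Y ⊆ Fim Q Y ∪ Y₁.image φ := by
        intro w hw
        rw [mem_Fim] at hw
        obtain ⟨ψ, hψ, y, hy, rfl⟩ := hw
        rw [Finset.mem_union]
        rw [Finset.mem_insert] at hψ
        rcases hψ with rfl | hψ
        · by_cases h : ψ y ∈ Fim Q Y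
          · exact Or.inl h
          · exact Or.inr (Finset.mem_image_of_mem _ (Finset.mem_filter.mpr ⟨hy, h⟩))
        · exact Or.inl (mem_Fim.mpr ⟨ψ, hψ, y, hy, rfl⟩)
      calc _ ≤ (Fim Q Y ∪ Y₁.image φ).card := Finset.card_le_card hsub
        _ ≤ (Fim Q Y).card + (Y₁.image φ).card := Finset.card_union_le _ _
        _ ≤ _ := by gcongr; exact Finset.card_image_le
    have hU : (Uim S Q Y).card + (tE S Y₁).card ≤ (Uim S (insert φ Q) Y).card := by
      have hinj : Function.Injective (Sym2.map φ) :=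
        Sym2.map.injective (hemb φ (Finset.mem_insert_self _ _)).1
      have hdisj : Disjoint (Uim S Q Y) ((tE S Y₁).image (Sym2.map φ)) := by
        rw [Finset.disjoint_left]
        intro e he he'
        rw [Finset.mem_image] at he'
        obtain ⟨e₀, he₀, rfl⟩ := he'
        rw [mem_tE] at he₀
        obtain ⟨-, y, hy, hye⟩ := he₀
        rw [mem_Uim] at he
        obtain ⟨φ', hφ', e', he', heq⟩ := he
        have hmem : φ y ∈ Sym2.map φ' e' := by
          rw [heq]; exact Sym2.mem_map.mpr ⟨y, hye, rfl⟩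
        rw [Sym2.mem_map] at hmem
        obtain ⟨v, hv, hvy⟩ := hmem
        by_cases hvY : v ∈ Y
        · have : φ y ∈ Fim Q Y := mem_Fim.mpr ⟨φ', hφ', v, hvY, hvy⟩
          exact (Finset.mem_filter.mp hy).2 this
        · have h1 := hagree φ' (Finset.mem_insert_of_mem hφ') φ (Finset.mem_insert_self _ _) v hvY
          rw [h1] at hvy
          have := (hemb φ (Finset.mem_insert_self _ _)).1 hvy
          exact hvY (this ▸ hY₁Y hy)
      have hsub : Uim S Q Y ∪ (tE S Y₁).image (Sym2.map φ) ⊆ Uim S (insert φ Q) Y := by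
        intro e he
        rw [Finset.mem_union] at he
        rw [mem_Uim]
        rcases he with he | he
        · rw [mem_Uim] at he
          obtain ⟨φ', hφ', e', he', heq⟩ := he
          exact ⟨φ', Finset.mem_insert_of_mem hφ', e', he', heq⟩
        · rw [Finset.mem_image] at he
          obtain ⟨e₀, he₀, rfl⟩ := he
          exact ⟨φ, Finset.mem_insert_self _ _, e₀, tE_mono hY₁Y he₀, rfl⟩
      calc _ = (Uim S Q Y).card + ((tE S Y₁).image (Sym2.map φ)).card := by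
            rw [Finset.card_image_of_injective _ hinj]
        _ = (Uim S Q Y ∪ (tE S Y₁).image (Sym2.map φ)).card :=
            (Finset.card_union_of_disjoint hdisj).symm
        _ ≤ _ := Finset.card_le_card hsub
    calc (n : ℝ) ^ (Fim (insert φ Q) Y).card * ρ ^ (Uim S (insert φ Q) Y).card
        ≤ (n : ℝ) ^ ((Fim Q Y).card + Y₁.card) * ρ ^ ((Uim S Q Y).card + (tE S Y₁).card) := by
          apply mul_le_mul
          · exact pow_le_pow_right₀ hn' hF
          · exact pow_le_pow_of_le_one hρ0 hρ1 hU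
          · positivity
          · positivity
      _ = ((n : ℝ) ^ (Fim Q Y).card * ρ ^ (Uim S Q Y).card)
            * ((n : ℝ) ^ Y₁.card * ρ ^ (tE S Y₁).card) := by
          rw [pow_add, pow_add]; ring
      _ ≤ 1 * 1 := by
          apply mul_le_mul ih' (hun Y₁ hY₁Y) (by positivity) (by norm_num)
      _ = 1 := one_mul 1

lemma supp_Uim_subset {S : SimpleGraph V} {Y : Finset V} {Q : Finset (V → W)}
    (hagree : ∀ φ ∈ Q, ∀ φ' ∈ Q, ∀ v, v ∉ Y → φ v = φ' v)
    {φ₀ : V → W} (h₀ : φ₀ ∈ Q) : supp (Uim S Q Y) ⊆ (bd S Y).image φ₀ ∪ Fim Q Y := by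
  intro x hx
  rw [mem_supp] at hx
  obtain ⟨e, he, hxe⟩ := hx
  rw [mem_Uim] at he
  obtain ⟨φ, hφ, e', he', rfl⟩ := he
  rw [Sym2.mem_map] at hxe
  obtain ⟨v, hv, rfl⟩ := hxe
  rw [Finset.mem_union]
  by_cases hvY : v ∈ Y
  · exact Or.inr (mem_Fim.mpr ⟨φ, hφ, v, hvY, rfl⟩)
  · left
    obtain ⟨y, hy, hadj, -⟩ := adj_of_mem_tE he' hv hvY
    rw [Finset.mem_image]
    exact ⟨v, mem_bd.mpr ⟨hvY, y, hy, hadj⟩, hagree φ₀ h₀ φ hφ v hvY⟩

/-- In an unlikely set some vertex, adjacent to the outside, takes few values. -/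
lemma exists_few_values (S : SimpleGraph V) (H : SimpleGraph W) (Y : Finset V) (hY : Y.Nonempty)
    (n : ℕ) (hn : 2 ≤ n) (ρ : ℝ) (hρ0 : 0 ≤ ρ) (hρ1 : ρ ≤ 1)
    (hP1 : ∀ U : Finset (Sym2 W), (∀ e ∈ U, e ∈ H.edgeSet) →
      1 ≤ (n : ℝ) ^ (supp U).card * (ρ * Real.exp (-1)) ^ U.card)
    (hun : ∀ Y' ⊆ Y, (n : ℝ) ^ Y'.card * ρ ^ (tE S Y').card ≤ 1)
    (Q : Finset (V → W)) (hemb : ∀ φ ∈ Q, IsEmb S H φ)
    (hagree : ∀ φ ∈ Q, ∀ φ' ∈ Q, ∀ v, v ∉ Y → φ v = φ' v) (hQ : Q.Nonempty) :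
    ∃ y ∈ Y, ((Q.image (fun φ => φ y)).card : ℝ) ≤ min (Real.log n) (H.maxDegree : ℝ) := by
  have hn' : (1 : ℝ) ≤ n := by exact_mod_cast (by omega : 1 ≤ n)
  have hn0 : (0 : ℝ) < n := by linarith
  obtain ⟨φ₀, h₀⟩ := hQ
  have hcl := closure_le S H Y n (by omega) ρ hρ0 hρ1 hun Q hemb hagree
  have hUH : ∀ e ∈ Uim S Q Y, e ∈ H.edgeSet := by
    intro e he
    rw [mem_Uim] at he
    obtain ⟨φ, hφ, e', he', rfl⟩ := he
    exact (hemb φ hφ).map_mem (mem_tE.mp he').1
  have h1 := hP1 _ hUH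
  set t := (bd S Y).card with ht
  set f := (Fim Q Y).card with hf
  set u := (Uim S Q Y).card with hu
  have hsupp : (supp (Uim S Q Y)).card ≤ t + f := by
    calc _ ≤ ((bd S Y).image φ₀ ∪ Fim Q Y).card :=
          Finset.card_le_card (supp_Uim_subset hagree h₀)
      _ ≤ ((bd S Y).image φ₀).card + (Fim Q Y).card := Finset.card_union_le _ _
      _ ≤ t + f := by gcongr; exact Finset.card_image_le
  have h2 : (1 : ℝ) ≤ (n : ℝ) ^ t * Real.exp (-1) ^ u := by
    calc (1 : ℝ) ≤ (n : ℝ) ^ (supp (Uim S Q Y)).card * (ρ * Real.exp (-1)) ^ u := h1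
      _ ≤ (n : ℝ) ^ (t + f) * (ρ * Real.exp (-1)) ^ u := by
          apply mul_le_mul_of_nonneg_right (pow_le_pow_right₀ hn' hsupp); positivity
      _ = ((n : ℝ) ^ t * Real.exp (-1) ^ u) * ((n : ℝ) ^ f * ρ ^ u) := by
          rw [pow_add, mul_pow]; ring
      _ ≤ ((n : ℝ) ^ t * Real.exp (-1) ^ u) * 1 := by
          apply mul_le_mul_of_nonneg_left hcl; positivity
      _ = _ := mul_one _
  have h3 : (u : ℝ) ≤ t * Real.log n := by
    have h := Real.log_nonneg h2
    rw [Real.log_mul (by positivity) (by positivity), Real.log_pow, Real.log_pow,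
      Real.log_exp] at h
    linarith
  -- the boundary is nonempty
  have hbd : (bd S Y).Nonempty := by
    rw [Finset.nonempty_iff_ne_empty]
    intro hempty
    have ht0 : t = 0 := by rw [ht, hempty, Finset.card_empty]
    rw [ht0] at h3
    have hu0 : u = 0 := by
      have : (u : ℝ) ≤ 0 := by simpa using h3
      exact_mod_cast le_antisymm this (Nat.cast_nonneg u)
    have htE : tE S Y = ∅ := by
      rw [Finset.eq_empty_iff_forall_notMem]
      intro e he
      have : Sym2.map φ₀ e ∈ Uim S Q Y := mem_Uim.mpr ⟨φ₀, h₀, e, he, rfl⟩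
      rw [hu, Finset.card_eq_zero] at hu0
      rw [hu0] at this
      exact absurd this (Finset.notMem_empty _)
    have := hun Y (Finset.Subset.refl _)
    rw [htE, Finset.card_empty, pow_zero, mul_one] at this
    have h4 : (2 : ℝ) ≤ (n : ℝ) ^ Y.card := by
      calc (2 : ℝ) ≤ n := by exact_mod_cast hn
        _ = (n : ℝ) ^ 1 := (pow_one _).symm
        _ ≤ (n : ℝ) ^ Y.card := pow_le_pow_right₀ hn' (Finset.card_pos.mpr hY)
    linarith
  -- choose neighbours
  have hz : ∀ w : V, ∃ y : V, w ∈ bd S Y → (y ∈ Y ∧ S.Adj y w) := by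
    intro w
    by_cases hw : w ∈ bd S Y
    · obtain ⟨-, y, hy, hadj⟩ := mem_bd.mp hw
      exact ⟨y, fun _ => ⟨hy, hadj⟩⟩
    · exact ⟨w, fun h => absurd h hw⟩
  choose z hz using hz
  have hsum : ∑ w ∈ bd S Y, (Q.image (fun φ => φ (z w))).card ≤ u := by
    rw [← Finset.card_sigma, hu]
    apply Finset.card_le_card_of_injOn (fun x : (Σ _ : V, W) => s(φ₀ x.1, x.2))
    · intro x hx
      rw [Finset.mem_coe, Finset.mem_sigma, Finset.mem_image] at hx
      obtain ⟨hx1, φ, hφ, hx2⟩ := hx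
      have hx1' := mem_bd.mp hx1
      obtain ⟨hzY, hadj⟩ := hz _ hx1
      rw [Finset.mem_coe, mem_Uim]
      refine ⟨φ, hφ, s(z x.1, x.1), mem_tE.mpr ⟨hadj, z x.1, hzY, Sym2.mem_mk_left _ _⟩, ?_⟩
      rw [Sym2.map_mk]
      simp only at hx2 ⊢
      rw [hx2, hagree φ hφ φ₀ h₀ x.1 hx1'.1, Sym2.eq_swap]
    · intro x hx x' hx' heq
      rw [Finset.mem_coe, Finset.mem_sigma, Finset.mem_image] at hx hx'
      obtain ⟨hx1, φ, hφ, hx2⟩ := hx
      obtain ⟨hx1', φ', hφ', hx2'⟩ := hx'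
      have hF : x.2 ∈ Fim Q Y := mem_Fim.mpr ⟨φ, hφ, z x.1, (hz _ hx1).1, hx2⟩
      have hF' : x'.2 ∈ Fim Q Y := mem_Fim.mpr ⟨φ', hφ', z x'.1, (hz _ hx1').1, hx2'⟩
      have hnF := notMem_Fim hemb hagree h₀ (mem_bd.mp hx1).1
      have hnF' := notMem_Fim hemb hagree h₀ (mem_bd.mp hx1').1
      simp only [Sym2.eq_iff] at heq
      rcases heq with ⟨ha, hb⟩ | ⟨ha, hb⟩
      · obtain ⟨a, b⟩ := x
        obtain ⟨a', b'⟩ := x'
        simp only at ha hb
        have := (hemb φ₀ h₀).1 ha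
        subst this
        subst hb
        rfl
      · exact absurd (ha ▸ hF') hnF
  have hsum' : ∑ w ∈ bd S Y, ((Q.image (fun φ => φ (z w))).card : ℝ)
      ≤ ∑ w ∈ bd S Y, Real.log n := by
    rw [Finset.sum_const, nsmul_eq_mul, ← ht]
    refine le_trans ?_ h3
    exact_mod_cast hsum
  obtain ⟨w, hw, hle⟩ := Finset.exists_le_of_sum_le hbd hsum'
  obtain ⟨hzY, hadj⟩ := hz w hw
  refine ⟨z w, hzY, le_min hle ?_⟩
  have hsubset : Q.image (fun φ => φ (z w)) ⊆ H.neighborFinset (φ₀ w) := by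
    intro x hx
    rw [Finset.mem_image] at hx
    obtain ⟨φ, hφ, rfl⟩ := hx
    rw [SimpleGraph.mem_neighborFinset]
    rw [hagree φ₀ h₀ φ hφ w (mem_bd.mp hw).1]
    exact ((hemb φ hφ).2 _ _ hadj).symm
  have : (Q.image (fun φ => φ (z w))).card ≤ H.maxDegree :=
    (Finset.card_le_card hsubset).trans (by
      rw [SimpleGraph.card_neighborFinset_eq_degree]
      exact SimpleGraph.degree_le_maxDegree H _)
  exact_mod_cast this

/-- Families of embeddings that agree off an unlikely set are small. -/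
lemma family_card_le (S : SimpleGraph V) (H : SimpleGraph W)
    (n : ℕ) (hn : 2 ≤ n) (ρ : ℝ) (hρ0 : 0 ≤ ρ) (hρ1 : ρ ≤ 1)
    (hP1 : ∀ U : Finset (Sym2 W), (∀ e ∈ U, e ∈ H.edgeSet) →
      1 ≤ (n : ℝ) ^ (supp U).card * (ρ * Real.exp (-1)) ^ U.card) :
    ∀ (m : ℕ) (Y : Finset V), Y.card = m →
    (∀ Y' ⊆ Y, (n : ℝ) ^ Y'.card * ρ ^ (tE S Y').card ≤ 1) →
    ∀ (Q : Finset (V → W)), (∀ φ ∈ Q, IsEmb S H φ) →
    (∀ φ ∈ Q, ∀ φ' ∈ Q, ∀ v, v ∉ Y → φ v = φ' v) →
    (Q.card : ℝ) ≤ (min (Real.log n) (H.maxDegree : ℝ)) ^ m := by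
  intro m
  have hB : 0 ≤ min (Real.log n) (H.maxDegree : ℝ) :=
    le_min (Real.log_natCast_nonneg n) (Nat.cast_nonneg _)
  induction m with
  | zero =>
    intro Y hYc _ Q _ hagree
    rw [Finset.card_eq_zero] at hYc
    rw [pow_zero]
    have : Q.card ≤ 1 := by
      rw [Finset.card_le_one]
      intro φ hφ φ' hφ'
      funext v
      exact hagree φ hφ φ' hφ' v (by rw [hYc]; exact Finset.notMem_empty _)
    exact_mod_cast this
  | succ m ih =>
    intro Y hYc hun Q hemb hagree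
    by_cases hQ : Q.Nonempty
    · have hY : Y.Nonempty := Finset.card_pos.mp (by omega)
      obtain ⟨y, hy, hle⟩ := exists_few_values S H Y hY n hn ρ hρ0 hρ1 hP1 hun Q hemb hagree hQ
      have hcard : (Q.card : ℝ) = ∑ x ∈ Q.image (fun φ => φ y),
          ((Q.filter (fun φ => φ y = x)).card : ℝ) := by
        rw [Finset.card_eq_sum_card_image (fun φ => φ y) Q]
        push_cast
        rfl
      have hterm : ∀ x ∈ Q.image (fun φ => φ y), ((Q.filter (fun φ => φ y = x)).card : ℝ)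
          ≤ (min (Real.log n) (H.maxDegree : ℝ)) ^ m := by
        intro x _
        apply ih (Y.erase y) (by rw [Finset.card_erase_of_mem hy, hYc]; rfl)
        · intro Y' hY'
          exact hun Y' (hY'.trans (Finset.erase_subset _ _))
        · intro φ hφ
          exact hemb φ (Finset.mem_filter.mp hφ).1
        · intro φ hφ φ' hφ' v hv
          rw [Finset.mem_filter] at hφ hφ'
          by_cases hvy : v = y
          · rw [hvy, hφ.2, hφ'.2]
          · exact hagree φ hφ.1 φ' hφ'.1 v (fun h => hv (Finset.mem_erase.mpr ⟨hvy, h⟩))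
      rw [hcard]
      calc _ ≤ ∑ x ∈ Q.image (fun φ => φ y), (min (Real.log n) (H.maxDegree : ℝ)) ^ m :=
            Finset.sum_le_sum hterm
        _ = ((Q.image (fun φ => φ y)).card : ℝ) * (min (Real.log n) (H.maxDegree : ℝ)) ^ m := by
            rw [Finset.sum_const, nsmul_eq_mul]
        _ ≤ (min (Real.log n) (H.maxDegree : ℝ)) * (min (Real.log n) (H.maxDegree : ℝ)) ^ m := by
            apply mul_le_mul_of_nonneg_right hle; positivity
        _ = _ := by rw [pow_succ]; ring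
    · rw [Finset.not_nonempty_iff_eq_empty] at hQ
      rw [hQ]
      simp only [Finset.card_empty, Nat.cast_zero]
      positivity

end closure

end Pool.Agent.TH965.Emb
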