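import Pool.Agent.TH965.Emb

set_option autoImplicit false
set_option linter.unusedSectionVars false

/-!
# Counting embeddings: the minimal likely set and the main count
-/

namespace Pool.Agent.TH965.Emb

open Finset
open scoped Classical

section conn

variable {V : Type} [Fintype V]

/-- A set that cannot be split without cutting an edge spans at least `|Z| - 1` edges. -/
lemma card_le_iE (S : SimpleGraph V) (Z : Finset V) (hZ : Z.Nonempty)
    (hind : ∀ Z₁ ⊆ Z, Z₁.Nonempty → Z₁ ≠ Z → ∃ a ∈ Z₁, ∃ b ∈ Z, b ∉ Z₁ ∧ S.Adj a b) :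
    Z.card ≤ (iE S Z).card + 1 := by
  have hconn : (S.induce (Z : Set V)).Connected := by
    rw [SimpleGraph.connected_iff]
    refine ⟨?_, ?_⟩
    · intro u v
      by_contra hno
      set Z₁ : Finset V := Z.filter (fun x => ∃ hx : x ∈ Z,
        (S.induce (Z : Set V)).Reachable u ⟨x, hx⟩) with hZ₁
      have hu : u.1 ∈ Z₁ := by
        rw [hZ₁, Finset.mem_filter]
        exact ⟨u.2, u.2, SimpleGraph.Reachable.refl _⟩
      have hv : v.1 ∉ Z₁ := by
        rw [hZ₁, Finset.mem_filter]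
        rintro ⟨_, _, h⟩
        exact hno h
      obtain ⟨a, ha, b, hb, hb', hadj⟩ := hind Z₁ (Finset.filter_subset _ _) ⟨u.1, hu⟩
        (fun h => hv (by rw [h]; exact v.2))
      rw [hZ₁, Finset.mem_filter] at ha
      obtain ⟨haZ, haZ', hreach⟩ := ha
      apply hb'
      rw [hZ₁, Finset.mem_filter]
      refine ⟨hb, hb, hreach.trans ?_⟩
      apply SimpleGraph.Adj.reachable
      exact hadj
    · obtain ⟨x, hx⟩ := hZ
      exact ⟨⟨x, hx⟩⟩
  have h := hconn.card_vert_le_card_edgeSet_add_one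
  have h1 : Nat.card (Z : Set V) = Z.card := by simp
  have h2 : Nat.card (S.induce (Z : Set V)).edgeSet ≤ (iE S Z).card := by
    have hmem : ∀ e : (S.induce (Z : Set V)).edgeSet,
        Sym2.map (Subtype.val) e.1 ∈ iE S Z := by
      rintro ⟨e, he⟩
      induction e using Sym2.ind with
      | _ a b =>
        rw [Sym2.map_mk, mem_iE]
        refine ⟨he, ?_⟩
        intro y hy
        rw [Sym2.mem_iff] at hy
        rcases hy with rfl | rfl
        · exact a.2
        · exact b.2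
    have hinj : Function.Injective (fun e : (S.induce (Z : Set V)).edgeSet =>
        (⟨Sym2.map (Subtype.val) e.1, hmem e⟩ : {x // x ∈ iE S Z})) := by
      intro e e' h
      have h' := congrArg Subtype.val h
      exact Subtype.ext (Sym2.map.injective Subtype.val_injective h')
    have := Nat.card_le_card_of_injective _ hinj
    simpa using this
  omega

lemma iE_subset_tE (S : SimpleGraph V) (Z : Finset V) : iE S Z ⊆ tE S Z := by
  intro e he
  rw [mem_iE] at he
  rw [mem_tE]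
  refine ⟨he.1, ?_⟩
  induction e using Sym2.ind with
  | _ a b => exact ⟨a, he.2 a (Sym2.mem_mk_left _ _), Sym2.mem_mk_left _ _⟩

lemma iE_card_lt (S : SimpleGraph V) (Z : Finset V) (hbd : (bd S Z).Nonempty) :
    (iE S Z).card + 1 ≤ (tE S Z).card := by
  apply Nat.succ_le_of_lt
  apply Finset.card_lt_card
  rw [Finset.ssubset_iff_of_subset (iE_subset_tE S Z)]
  obtain ⟨w, hw⟩ := hbd
  obtain ⟨hw1, y, hy, hadj⟩ := mem_bd.mp hw
  refine ⟨s(y, w), mem_tE.mpr ⟨hadj, y, hy, Sym2.mem_mk_left _ _⟩, ?_⟩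
  rw [mem_iE]
  rintro ⟨-, h⟩
  exact hw1 (h w (Sym2.mem_mk_right _ _))

lemma bd_card_le (S : SimpleGraph V) (Z : Finset V) : (bd S Z).card ≤ (tE S Z).card := by
  have hz : ∀ w : V, ∃ y : V, w ∈ bd S Z → (y ∈ Z ∧ S.Adj y w) := by
    intro w
    by_cases hw : w ∈ bd S Z
    · obtain ⟨-, y, hy, hadj⟩ := mem_bd.mp hw
      exact ⟨y, fun _ => ⟨hy, hadj⟩⟩
    · exact ⟨w, fun h => absurd h hw⟩
  choose z hz using hz
  apply Finset.card_le_card_of_injOn (fun w => s(z w, w))
  · intro w hw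
    obtain ⟨h1, h2⟩ := hz w hw
    exact mem_tE.mpr ⟨h2, z w, h1, Sym2.mem_mk_left _ _⟩
  · intro w hw w' hw' heq
    obtain ⟨h1, h2⟩ := hz w hw
    obtain ⟨h1', h2'⟩ := hz w' hw'
    simp only [Sym2.eq_iff] at heq
    rcases heq with ⟨-, h⟩ | ⟨h, -⟩
    · exact h
    · exact absurd (h ▸ h1) (mem_bd.mp hw').1

end conn

section sunflower

variable {V W : Type} [Fintype V] [Fintype W]

lemma Uim_card (S : SimpleGraph V) (H : SimpleGraph W) (Z : Finset V) (D : Finset (V → W))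
    (hemb : ∀ φ ∈ D, IsEmb S H φ)
    (hagree : ∀ φ ∈ D, ∀ φ' ∈ D, ∀ v, v ∉ Z → φ v = φ' v)
    (hdisj : ∀ φ ∈ D, ∀ φ' ∈ D, φ ≠ φ' → Disjoint (Z.image φ) (Z.image φ')) :
    (Uim S D Z).card = D.card * (tE S Z).card := by
  unfold Uim
  rw [Finset.card_biUnion]
  · rw [Finset.sum_congr rfl (fun φ hφ =>
      Finset.card_image_of_injective (tE S Z) (Sym2.map.injective (hemb φ hφ).1)),
      Finset.sum_const, smul_eq_mul]
  · intro φ hφ φ' hφ' hne
    rw [Function.onFun, Finset.disjoint_left]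
    intro e he he'
    rw [Finset.mem_image] at he he'
    obtain ⟨e₁, he₁, rfl⟩ := he
    obtain ⟨e₂, he₂, heq⟩ := he'
    obtain ⟨-, y, hy, hye⟩ := mem_tE.mp he₁
    have hmem : φ y ∈ Sym2.map φ' e₂ := by
      rw [heq]; exact Sym2.mem_map.mpr ⟨y, hye, rfl⟩
    rw [Sym2.mem_map] at hmem
    obtain ⟨v, hv, hvy⟩ := hmem
    by_cases hvZ : v ∈ Z
    · exact (Finset.disjoint_left.mp (hdisj φ hφ φ' hφ' hne)) (Finset.mem_image_of_mem φ hy)
        (hvy ▸ Finset.mem_image_of_mem φ' hvZ)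
    · rw [hagree φ' hφ' φ hφ v hvZ] at hvy
      exact hvZ ((hemb φ hφ).1 hvy ▸ hy)

lemma Fim_card_le (Z : Finset V) (D : Finset (V → W)) : (Fim D Z).card ≤ D.card * Z.card :=
  Finset.card_biUnion_le_card_mul _ _ _ (fun _ _ => Finset.card_image_le)

/-- Many copies of the same piece, glued along common points, give many automorphisms. -/
lemma sunflower (S : SimpleGraph V) (H : SimpleGraph W) (Z : Finset V) (hZ : Z.Nonempty)
    (hcov : ∀ z ∈ Z, ∃ w, S.Adj z w) (D : Finset (V → W))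
    (hemb : ∀ φ ∈ D, IsEmb S H φ)
    (hagree : ∀ φ ∈ D, ∀ φ' ∈ D, ∀ v, v ∉ Z → φ v = φ' v)
    (hdisj : ∀ φ ∈ D, ∀ φ' ∈ D, φ ≠ φ' → Disjoint (Z.image φ) (Z.image φ')) :
    D.card.factorial ≤ autc (Uim S D Z) := by
  -- the embedding of `D × Z`
  have hιinj : Function.Injective (fun x : {φ // φ ∈ D} × {z // z ∈ Z} => x.1.1 x.2.1) := by
    rintro ⟨⟨φ, hφ⟩, ⟨z, hz⟩⟩ ⟨⟨φ', hφ'⟩, ⟨z', hz'⟩⟩ h
    simp only at h
    have hφφ : φ = φ' := by
      by_contra hne
      exact (Finset.disjoint_left.mp (hdisj φ hφ φ' hφ' hne)) (Finset.mem_image_of_mem φ hz)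
        (h ▸ Finset.mem_image_of_mem φ' hz')
    subst hφφ
    have := (hemb φ hφ).1 h
    subst this
    rfl
  set ι : {φ // φ ∈ D} × {z // z ∈ Z} ↪ W := ⟨_, hιinj⟩ with hι
  have hιa : ∀ (φ : {φ // φ ∈ D}) (z : {z // z ∈ Z}), ι (φ, z) = φ.1 z.1 := fun _ _ => rfl
  set gp : Equiv.Perm {φ // φ ∈ D} → Equiv.Perm W := fun π =>
    Equiv.Perm.viaFintypeEmbedding (Equiv.prodCongr π (Equiv.refl {z // z ∈ Z})) ι with hgp
  have hgp1 : ∀ (π : Equiv.Perm {φ // φ ∈ D}) (φ : {φ // φ ∈ D}) (v : V),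
      gp π (φ.1 v) = (π φ).1 v := by
    intro π φ v
    by_cases hv : v ∈ Z
    · have : φ.1 v = ι (φ, ⟨v, hv⟩) := rfl
      rw [this, hgp]
      simp only [Equiv.Perm.viaFintypeEmbedding_apply_image]
      rfl
    · have hnr : φ.1 v ∉ Set.range ι := by
        rintro ⟨⟨φ', z⟩, h⟩
        rw [hιa] at h
        rw [hagree φ.1 φ.2 φ'.1 φ'.2 v hv] at h
        exact hv ((hemb φ'.1 φ'.2).1 h ▸ z.2)
      rw [hgp]
      simp only
      rw [Equiv.Perm.viaFintypeEmbedding_apply_notMem_range _ _ hnr]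
      exact hagree φ.1 φ.2 (π φ).1 (π φ).2 v hv
  have hfix : ∀ (π : Equiv.Perm {φ // φ ∈ D}) (w : W), w ∉ supp (Uim S D Z) → gp π w = w := by
    intro π w hw
    have hnr : w ∉ Set.range ι := by
      rintro ⟨⟨φ', z⟩, h⟩
      apply hw
      rw [mem_supp]
      obtain ⟨u, hu⟩ := hcov z.1 z.2
      refine ⟨Sym2.map φ'.1 s(z.1, u), mem_Uim.mpr ⟨φ'.1, φ'.2, s(z.1, u),
        mem_tE.mpr ⟨hu, z.1, z.2, Sym2.mem_mk_left _ _⟩, rfl⟩, ?_⟩
      rw [Sym2.map_mk, ← h, hιa]
      exact Sym2.mem_mk_left _ _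
    rw [hgp]
    simp only
    exact Equiv.Perm.viaFintypeEmbedding_apply_notMem_range _ _ hnr
  have hpres : ∀ (π : Equiv.Perm {φ // φ ∈ D}), ∀ e ∈ Uim S D Z,
      Sym2.map (gp π) e ∈ Uim S D Z := by
    intro π e he
    obtain ⟨φ, hφ, e', he', rfl⟩ := mem_Uim.mp he
    rw [mem_Uim]
    refine ⟨(π ⟨φ, hφ⟩).1, (π ⟨φ, hφ⟩).2, e', he', ?_⟩
    rw [Sym2.map_map]
    congr 1
    funext v
    rw [Function.comp_apply]
    exact (hgp1 π ⟨φ, hφ⟩ v).symm
  have hinj : Function.Injective (fun π : Equiv.Perm {φ // φ ∈ D} =>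
      (⟨gp π, hfix π, hpres π⟩ : {g : Equiv.Perm W //
        (∀ w, w ∉ supp (Uim S D Z) → g w = w) ∧ ∀ e ∈ Uim S D Z, Sym2.map g e ∈ Uim S D Z})) := by
    intro π π' h
    have h' : gp π = gp π' := congrArg Subtype.val h
    obtain ⟨z, hz⟩ := hZ
    ext1 φ
    have h1 := hgp1 π φ z
    have h2 := hgp1 π' φ z
    rw [h'] at h1
    rw [h1] at h2
    have : ι (π φ, ⟨z, hz⟩) = ι (π' φ, ⟨z, hz⟩) := h2
    have := ι.injective this
    exact congrArg Prod.fst this
  have hcard := Nat.card_le_card_of_injective _ hinj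
  have h1 : Nat.card (Equiv.Perm {φ // φ ∈ D}) = D.card.factorial := by
    rw [Nat.card_eq_fintype_card, Fintype.card_perm]
    simp
  rw [h1] at hcard
  exact hcard

/-- A maximal disjoint subfamily. -/
lemma exists_maximal_disjoint (Z : Finset V) (hZ : Z.Nonempty) (Q : Finset (V → W)) :
    ∃ D ⊆ Q, (∀ φ ∈ D, ∀ φ' ∈ D, φ ≠ φ' → Disjoint (Z.image φ) (Z.image φ')) ∧
      ∀ φ ∈ Q, ∃ z ∈ Z, φ z ∈ Fim D Z := by
  set C := Q.powerset.filter (fun D => ∀ φ ∈ D, ∀ φ' ∈ D, φ ≠ φ' →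
    Disjoint (Z.image φ) (Z.image φ')) with hC
  have hCne : C.Nonempty := ⟨∅, by
    rw [hC, Finset.mem_filter]
    exact ⟨Finset.empty_mem_powerset _, fun φ hφ => absurd hφ (Finset.notMem_empty _)⟩⟩
  obtain ⟨D, hD, hmax⟩ := Finset.exists_max_image C Finset.card hCne
  rw [hC, Finset.mem_filter, Finset.mem_powerset] at hD
  refine ⟨D, hD.1, hD.2, ?_⟩
  intro φ hφ
  by_contra hno
  push Not at hno
  have hnD : φ ∉ D := by
    intro h
    obtain ⟨z, hz⟩ := hZ
    exact hno z hz (mem_Fim.mpr ⟨φ, h, z, hz, rfl⟩)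
  have hdj : ∀ φ' ∈ D, Disjoint (Z.image φ) (Z.image φ') := by
    intro φ' hφ'
    rw [Finset.disjoint_left]
    intro w hw hw'
    rw [Finset.mem_image] at hw hw'
    obtain ⟨z, hz, rfl⟩ := hw
    obtain ⟨z', hz', h⟩ := hw'
    exact hno z hz (mem_Fim.mpr ⟨φ', hφ', z', hz', h⟩)
  have hin : insert φ D ∈ C := by
    rw [hC, Finset.mem_filter, Finset.mem_powerset]
    refine ⟨Finset.insert_subset hφ hD.1, ?_⟩
    intro a ha b hb hab
    rw [Finset.mem_insert] at ha hb
    rcases ha with rfl | ha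
    · rcases hb with rfl | hb
      · exact absurd rfl hab
      · exact hdj b hb
    · rcases hb with rfl | hb
      · exact (hdj a ha).symm
      · exact hD.2 a ha b hb hab
  have := hmax _ hin
  rw [Finset.card_insert_of_notMem hnD] at this
  omega

end sunflower

section numeric

/-- The number `M` of copies is bounded. -/
lemma M_bound (n : ℕ) (hn : 2 ≤ n) (M t : ℕ) (x : ℝ) (hx : 0 < x)
    (h : (M.factorial : ℝ) ≤ (n : ℝ) ^ t * x ^ M) :
    (M : ℝ) ≤ max (Real.exp 2 * x) (t * Real.log n) := by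
  have hn0 : (0 : ℝ) < n := by exact_mod_cast (by omega : 0 < n)
  by_contra hcon
  rw [not_le, max_lt_iff] at hcon
  obtain ⟨h1, h2⟩ := hcon
  have hM0 : (0 : ℝ) < M := lt_of_le_of_lt (by positivity) h1
  have hM : 0 < M := by exact_mod_cast hM0
  have h3 : (M : ℝ) ^ M ≤ Real.exp M * M.factorial := by
    have := Real.pow_div_factorial_le_exp (M : ℝ) hM0.le M
    rwa [div_le_iff₀ (by positivity)] at this
  have h4 : x ≤ M * Real.exp (-2) := by
    rw [Real.exp_neg, ← div_eq_mul_inv, le_div_iff₀ (Real.exp_pos _)]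
    linarith
  have h5 : x ^ M ≤ (M : ℝ) ^ M * Real.exp (-2 * M) := by
    calc x ^ M ≤ (M * Real.exp (-2)) ^ M := pow_le_pow_left₀ hx.le h4 _
      _ = (M : ℝ) ^ M * Real.exp (-2) ^ M := mul_pow _ _ _
      _ = _ := by rw [← Real.exp_nat_mul]; ring_nf
  have h6 : (n : ℝ) ^ t = Real.exp (t * Real.log n) := by
    rw [← Real.log_pow, Real.exp_log (by positivity)]
  have h7 : (M : ℝ) ^ M ≤ (M : ℝ) ^ M * (Real.exp M * Real.exp (t * Real.log n)
      * Real.exp (-2 * M)) := by
    calc (M : ℝ) ^ M ≤ Real.exp M * M.factorial := h3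
      _ ≤ Real.exp M * ((n : ℝ) ^ t * x ^ M) := by
          apply mul_le_mul_of_nonneg_left h (Real.exp_pos _).le
      _ ≤ Real.exp M * (Real.exp (t * Real.log n) * ((M : ℝ) ^ M * Real.exp (-2 * M))) := by
          rw [h6]
          apply mul_le_mul_of_nonneg_left _ (Real.exp_pos _).le
          apply mul_le_mul_of_nonneg_left h5 (Real.exp_pos _).le
      _ = _ := by ring
  rw [← Real.exp_add, ← Real.exp_add] at h7
  have h8 : Real.exp ((M : ℝ) + t * Real.log n + -2 * M) < 1 := by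
    rw [Real.exp_lt_one_iff]
    linarith
  have h9 : (0 : ℝ) < (M : ℝ) ^ M := by positivity
  nlinarith

lemma exp_one_lt_three : Real.exp 1 < 3 := by
  have := Real.exp_one_lt_d9
  linarith

lemma exp_two_lt_eight : Real.exp 2 < 8 := by
  have h := Real.exp_one_lt_d9
  have h2 : Real.exp 2 = Real.exp 1 * Real.exp 1 := by rw [← Real.exp_add]; norm_num
  have h0 : 0 < Real.exp 1 := Real.exp_pos 1
  rw [h2]
  nlinarith

/-- Final numerical estimate. -/
lemma final_bound (k z t : ℕ) (hk : 1 ≤ k) (hz : 1 ≤ z) (hzk : z ≤ k + 1)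
    (hzt : 1 ≤ t → z ≤ k) (htk : t ≤ k)
    (L D b x M F : ℝ) (hL : 0 ≤ L) (hD : 0 ≤ D) (hb1 : 1 ≤ b) (hb : min L D ≤ b) (hx : 0 < x)
    (hxk : 1 ≤ Real.exp 1 ^ k * x) (hM0 : 0 ≤ M) (hM : M ≤ max (Real.exp 2 * x) (t * L))
    (hMD : 1 ≤ t → M ≤ D)
    (hF : F ≤ z ^ 2 * M * b ^ (z - 1)) : F ≤ (64 * b) ^ k * x := by
  have hb0 : 0 < b := by linarith
  have he2 := exp_two_lt_eight
  have he1 := exp_one_lt_three
  have hkp : (k : ℝ) ≤ 2 ^ k := by exact_mod_cast Nat.lt_two_pow_self.le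
  have hk1 : (k : ℝ) + 1 ≤ 2 ^ k := by exact_mod_cast Nat.succ_le_of_lt (Nat.lt_two_pow_self (n := k))
  have h8k : (8 : ℝ) ≤ 8 ^ k := by
    calc (8 : ℝ) = 8 ^ 1 := (pow_one _).symm
      _ ≤ 8 ^ k := pow_le_pow_right₀ (by norm_num) hk
  rcases Nat.eq_zero_or_pos t with ht | ht
  · -- no boundary
    subst ht
    simp only [Nat.cast_zero, zero_mul] at hM
    have hM' : M ≤ Real.exp 2 * x := by
      rw [max_eq_left (by positivity)] at hM
      exact hM
    have hzk' : (z : ℝ) ≤ 2 ^ k := by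
      have : (z : ℝ) ≤ k + 1 := by exact_mod_cast hzk
      linarith
    calc F ≤ z ^ 2 * M * b ^ (z - 1) := hF
      _ ≤ (2 ^ k) ^ 2 * (8 ^ k * x) * b ^ k := by
          apply mul_le_mul
          · apply mul_le_mul
            · exact pow_le_pow_left₀ (by positivity) hzk' 2
            · refine hM'.trans ?_
              apply mul_le_mul_of_nonneg_right _ hx.le
              linarith
            · exact hM0
            · positivity
          · exact pow_le_pow_right₀ hb1 (by omega)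
          · positivity
          · positivity
      _ = (32 : ℝ) ^ k * b ^ k * x := by
          rw [← pow_mul, mul_comm k 2, pow_mul]
          norm_num
          have : (32 : ℝ) ^ k = 4 ^ k * 8 ^ k := by rw [← mul_pow]; norm_num
          rw [this]
          ring
      _ ≤ (64 : ℝ) ^ k * b ^ k * x := by
          apply mul_le_mul_of_nonneg_right _ hx.le
          apply mul_le_mul_of_nonneg_right _ (by positivity)
          exact pow_le_pow_left₀ (by norm_num) (by norm_num) k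
      _ = (64 * b) ^ k * x := by rw [mul_pow]
  · have hzk2 := hzt ht
    have hMD' := hMD ht
    have ht1 : (1 : ℝ) ≤ t := by exact_mod_cast ht
    have htk' : (t : ℝ) ≤ k := by exact_mod_cast htk
    have hMb : M ≤ Real.exp 2 * x + k * b := by
      rcases le_max_iff.mp hM with h | h
      · have : 0 ≤ (k : ℝ) * b := by positivity
        linarith
      · have h1 : M ≤ t * min L D := by
          rcases min_choice L D with h' | h'
          · rw [h']; exact h
          · rw [h']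
            nlinarith
        have h2 : (t : ℝ) * min L D ≤ k * b :=
          mul_le_mul htk' hb (le_min hL hD) (by positivity)
        have : 0 ≤ Real.exp 2 * x := by positivity
        linarith
    have hz' : (z : ℝ) ≤ 2 ^ k := by
      have : (z : ℝ) ≤ k := by exact_mod_cast hzk2
      linarith
    have hbz : b ^ (z - 1) * b ≤ b ^ k := by
      rw [← pow_succ]
      exact pow_le_pow_right₀ hb1 (by omega)
    have hbz1 : b ^ (z - 1) ≤ b ^ k := pow_le_pow_right₀ hb1 (by omega)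
    have hz2 : (z : ℝ) ^ 2 ≤ 4 ^ k := by
      calc (z : ℝ) ^ 2 ≤ (2 ^ k) ^ 2 := pow_le_pow_left₀ (by positivity) hz' 2
        _ = 4 ^ k := by rw [← pow_mul, mul_comm k 2, pow_mul]; norm_num
    have he3 : Real.exp 1 ^ k ≤ 3 ^ k := pow_le_pow_left₀ (Real.exp_pos _).le he1.le k
    have hx3 : 1 ≤ 3 ^ k * x := hxk.trans (mul_le_mul_of_nonneg_right he3 hx.le)
    calc F ≤ z ^ 2 * M * b ^ (z - 1) := hF
      _ ≤ 4 ^ k * (Real.exp 2 * x + k * b) * b ^ (z - 1) := by
          apply mul_le_mul_of_nonneg_right _ (by positivity)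
          exact mul_le_mul hz2 hMb hM0 (by positivity)
      _ = 4 ^ k * (Real.exp 2 * x * b ^ (z - 1)) + 4 ^ k * (k * (b ^ (z - 1) * b)) := by ring
      _ ≤ 4 ^ k * (8 ^ k * x * b ^ k) + 4 ^ k * (2 ^ k * (b ^ k * (3 ^ k * x))) := by
          apply add_le_add
          · apply mul_le_mul_of_nonneg_left _ (by positivity)
            apply mul_le_mul _ hbz1 (by positivity) (by positivity)
            apply mul_le_mul_of_nonneg_right _ hx.le
            linarith
          · apply mul_le_mul_of_nonneg_left _ (by positivity)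
            apply mul_le_mul hkp _ (by positivity) (by positivity)
            calc b ^ (z - 1) * b ≤ b ^ k := hbz
              _ = b ^ k * 1 := (mul_one _).symm
              _ ≤ b ^ k * (3 ^ k * x) := mul_le_mul_of_nonneg_left hx3 (by positivity)
      _ = ((32 : ℝ) ^ k + 24 ^ k) * (b ^ k * x) := by
          have e1 : (32 : ℝ) ^ k = 4 ^ k * 8 ^ k := by rw [← mul_pow]; norm_num
          have e2 : (24 : ℝ) ^ k = 4 ^ k * (2 ^ k * 3 ^ k) := by
            rw [← mul_pow, ← mul_pow]; norm_num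
          rw [e1, e2]; ring
      _ ≤ (64 : ℝ) ^ k * (b ^ k * x) := by
          apply mul_le_mul_of_nonneg_right _ (by positivity)
          have e3 : (32 : ℝ) ^ k ≤ 32 ^ k := le_rfl
          have e4 : (24 : ℝ) ^ k ≤ 32 ^ k := pow_le_pow_left₀ (by norm_num) (by norm_num) k
          have e5 : (2 : ℝ) ≤ 2 ^ k := by
            calc (2 : ℝ) = 2 ^ 1 := (pow_one _).symm
              _ ≤ 2 ^ k := pow_le_pow_right₀ (by norm_num) hk
          have e6 : (64 : ℝ) ^ k = 2 ^ k * 32 ^ k := by rw [← mul_pow]; norm_num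
          have e7 : (0 : ℝ) < 32 ^ k := by positivity
          rw [e6]
          nlinarith
      _ = (64 * b) ^ k * x := by rw [mul_pow]; ring

end numeric

end Pool.Agent.TH965.Emb
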