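import Pool.Agent.TH965.Emb2

set_option autoImplicit false
set_option linter.unusedSectionVars false

/-!
# Counting embeddings: the main count
-/

namespace Pool.Agent.TH965.Emb

open Finset
open scoped Classical

section Zset

variable {V W : Type} [Fintype V] [Fintype W]

/-- Families of embeddings that agree off a minimal likely set. -/
lemma Z_family (S : SimpleGraph V) (H : SimpleGraph W)
    (n : ℕ) (hn : 2 ≤ n) (hWn : Fintype.card W ≤ n) (ρ : ℝ) (hρ0 : 0 < ρ) (hρ1 : ρ ≤ 1)
    (hP : ∀ U : Finset (Sym2 W), (∀ e ∈ U, e ∈ H.edgeSet) →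
      (autc U : ℝ) ≤ (n : ℝ) ^ (supp U).card * (ρ * Real.exp (-1)) ^ U.card)
    (b : ℝ) (hb1 : 1 ≤ b) (hb : min (Real.log n) (H.maxDegree : ℝ) ≤ b)
    (Z : Finset V) (hZ : Z.Nonempty)
    (hlik : 1 ≤ (n : ℝ) ^ Z.card * ρ ^ (tE S Z).card)
    (hmin : ∀ Z' ⊆ Z, Z'.Nonempty → Z' ≠ Z → (n : ℝ) ^ Z'.card * ρ ^ (tE S Z').card < 1)
    (Q : Finset (V → W)) (hemb : ∀ φ ∈ Q, IsEmb S H φ)
    (hagree : ∀ φ ∈ Q, ∀ φ' ∈ Q, ∀ v, v ∉ Z → φ v = φ' v) :
    (Q.card : ℝ) ≤ (64 * b) ^ (tE S Z).card
      * ((n : ℝ) ^ Z.card * (ρ * Real.exp (-1)) ^ (tE S Z).card) := by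
  have hn' : (1 : ℝ) ≤ n := by exact_mod_cast (by omega : 1 ≤ n)
  have hn0 : (0 : ℝ) < n := by linarith
  have hb0 : 0 < b := by linarith
  have hB0 : 0 ≤ min (Real.log n) (H.maxDegree : ℝ) :=
    le_min (Real.log_natCast_nonneg n) (Nat.cast_nonneg _)
  have hP1 : ∀ U : Finset (Sym2 W), (∀ e ∈ U, e ∈ H.edgeSet) →
      1 ≤ (n : ℝ) ^ (supp U).card * (ρ * Real.exp (-1)) ^ U.card := by
    intro U hU
    refine le_trans ?_ (hP U hU)
    exact_mod_cast one_le_autc U
  set k := (tE S Z).card with hk
  set x : ℝ := (n : ℝ) ^ Z.card * (ρ * Real.exp (-1)) ^ k with hx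
  have hx0 : 0 < x := by positivity
  rcases Nat.eq_zero_or_pos k with hk0 | hkpos
  · -- an isolated vertex
    obtain ⟨z, hz⟩ := hZ
    have hZz : ({z} : Finset V) = Z := by
      by_contra hne
      have h1 := hmin {z} (by simpa using hz) (Finset.singleton_nonempty z) hne
      have h2 : (tE S {z}).card = 0 := by
        have := Finset.card_le_card (tE_mono (S := S) (show ({z} : Finset V) ⊆ Z by simpa using hz))
        omega
      rw [h2, Finset.card_singleton, pow_one, pow_zero, mul_one] at h1
      linarith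
    have hcard : Q.card ≤ Fintype.card W := by
      rw [← Finset.card_univ]
      apply Finset.card_le_card_of_injOn (fun φ => φ z) (fun _ _ => Finset.mem_coe.mpr (Finset.mem_univ _))
      intro φ hφ φ' hφ' h
      funext v
      by_cases hv : v = z
      · rw [hv]; exact h
      · exact hagree φ hφ φ' hφ' v (by rw [← hZz, Finset.mem_singleton]; exact hv)
    have hxn : x = n := by
      rw [hx, hk0, ← hZz, Finset.card_singleton]; ring
    rw [hk0, hxn, pow_zero, one_mul]
    exact_mod_cast hcard.trans hWn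
  by_cases hQ : Q.Nonempty
  swap
  · rw [Finset.not_nonempty_iff_eq_empty] at hQ
    rw [hQ, Finset.card_empty, Nat.cast_zero]
    positivity
  -- every vertex of Z has a neighbour
  have hcov : ∀ z ∈ Z, ∃ w, S.Adj z w := by
    intro z hz
    by_contra hno
    push Not at hno
    have h2 : tE S {z} = ∅ := by
      rw [Finset.eq_empty_iff_forall_notMem]
      intro e he
      rw [mem_tE] at he
      obtain ⟨h1, y, hy, hye⟩ := he
      rw [Finset.mem_singleton] at hy
      subst hy
      obtain ⟨w, rfl⟩ := Sym2.mem_iff_exists.mp hye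
      exact hno w h1
    have hZz : ({z} : Finset V) = Z := by
      by_contra hne
      have h1 := hmin {z} (by simpa using hz) (Finset.singleton_nonempty z) hne
      rw [h2, Finset.card_singleton, Finset.card_empty, pow_one, pow_zero, mul_one] at h1
      linarith
    rw [hk, ← hZz, h2, Finset.card_empty] at hkpos
    exact absurd hkpos (lt_irrefl 0)
  -- Z cannot be split
  have hind : ∀ Z₁ ⊆ Z, Z₁.Nonempty → Z₁ ≠ Z → ∃ a ∈ Z₁, ∃ b ∈ Z, b ∉ Z₁ ∧ S.Adj a b := by
    intro Z₁ hZ₁ hne hneq
    by_contra hno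
    push Not at hno
    have hZ₂ne : (Z \ Z₁).Nonempty := by
      rw [Finset.sdiff_nonempty]
      intro h
      exact hneq (Finset.Subset.antisymm hZ₁ h)
    have hZ₂neq : Z \ Z₁ ≠ Z := by
      intro h
      obtain ⟨a, ha⟩ := hne
      have : a ∈ Z \ Z₁ := by rw [h]; exact hZ₁ ha
      exact (Finset.mem_sdiff.mp this).2 ha
    have h1 := hmin Z₁ hZ₁ hne hneq
    have h2 := hmin (Z \ Z₁) Finset.sdiff_subset hZ₂ne hZ₂neq
    have hdisj : Disjoint (tE S Z₁) (tE S (Z \ Z₁)) := by
      rw [Finset.disjoint_left]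
      intro e he he'
      obtain ⟨h1, y, hy, hye⟩ := mem_tE.mp he
      obtain ⟨-, y', hy', hye'⟩ := mem_tE.mp he'
      rw [Finset.mem_sdiff] at hy'
      have hne : y ≠ y' := fun h => hy'.2 (h ▸ hy)
      have := (Sym2.mem_and_mem_iff hne).mp ⟨hye, hye'⟩
      rw [this] at h1
      exact hno y hy y' hy'.1 hy'.2 h1
    have hle : (tE S Z₁).card + (tE S (Z \ Z₁)).card ≤ k := by
      rw [← Finset.card_union_of_disjoint hdisj]
      exact Finset.card_le_card (Finset.union_subset (tE_mono hZ₁) (tE_mono Finset.sdiff_subset))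
    have hZc : Z.card = Z₁.card + (Z \ Z₁).card := by
      rw [Finset.card_sdiff_of_subset hZ₁]
      have := Finset.card_le_card hZ₁
      omega
    have h3 : (n : ℝ) ^ Z.card * ρ ^ k ≤ ((n : ℝ) ^ Z₁.card * ρ ^ (tE S Z₁).card)
        * ((n : ℝ) ^ (Z \ Z₁).card * ρ ^ (tE S (Z \ Z₁)).card) := by
      calc (n : ℝ) ^ Z.card * ρ ^ k
          ≤ (n : ℝ) ^ Z.card * ρ ^ ((tE S Z₁).card + (tE S (Z \ Z₁)).card) := by
            apply mul_le_mul_of_nonneg_left _ (by positivity)
            exact pow_le_pow_of_le_one hρ0.le hρ1 hle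
        _ = _ := by rw [hZc, pow_add, pow_add]; ring
    have h4 : ((n : ℝ) ^ Z₁.card * ρ ^ (tE S Z₁).card)
        * ((n : ℝ) ^ (Z \ Z₁).card * ρ ^ (tE S (Z \ Z₁)).card) < 1 :=
      mul_lt_one_of_nonneg_of_lt_one_left (by positivity) h1 h2.le
    linarith
  have hconn := card_le_iE S Z hZ hind
  have hzk : Z.card ≤ k + 1 :=
    hconn.trans (by have := Finset.card_le_card (iE_subset_tE S Z); omega)
  set t := (bd S Z).card with ht
  have hzt : 1 ≤ t → Z.card ≤ k := by
    intro h
    have := iE_card_lt S Z (Finset.card_pos.mp h)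
    omega
  have htk : t ≤ k := bd_card_le S Z
  obtain ⟨D, hDQ, hdisj, hcover⟩ := exists_maximal_disjoint Z hZ Q
  have hDne : D.Nonempty := by
    obtain ⟨φ, hφ⟩ := hQ
    obtain ⟨z, _, h⟩ := hcover φ hφ
    rw [mem_Fim] at h
    obtain ⟨ψ, hψ, -⟩ := h
    exact ⟨ψ, hψ⟩
  obtain ⟨φ₀, h₀⟩ := hDne
  have hembD : ∀ φ ∈ D, IsEmb S H φ := fun φ hφ => hemb φ (hDQ hφ)
  have hagreeD : ∀ φ ∈ D, ∀ φ' ∈ D, ∀ v, v ∉ Z → φ v = φ' v :=
    fun φ hφ φ' hφ' => hagree φ (hDQ hφ) φ' (hDQ hφ')
  -- bound on the size of the disjoint family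
  have hUH : ∀ e ∈ Uim S D Z, e ∈ H.edgeSet := by
    intro e he
    rw [mem_Uim] at he
    obtain ⟨φ, hφ, e', he', rfl⟩ := he
    exact (hembD φ hφ).map_mem (mem_tE.mp he').1
  have hfac : (D.card.factorial : ℝ) ≤ (n : ℝ) ^ t * x ^ D.card := by
    have h1 := sunflower S H Z hZ hcov D hembD hagreeD hdisj
    have h2 := hP _ hUH
    have h3 := Uim_card S H Z D hembD hagreeD hdisj
    have h4 : (supp (Uim S D Z)).card ≤ t + D.card * Z.card := by
      calc _ ≤ ((bd S Z).image φ₀ ∪ Fim D Z).card :=
            Finset.card_le_card (supp_Uim_subset hagreeD h₀)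
        _ ≤ ((bd S Z).image φ₀).card + (Fim D Z).card := Finset.card_union_le _ _
        _ ≤ t + D.card * Z.card := by
            gcongr
            · exact Finset.card_image_le
            · exact Fim_card_le Z D
    calc (D.card.factorial : ℝ) ≤ autc (Uim S D Z) := by exact_mod_cast h1
      _ ≤ (n : ℝ) ^ (supp (Uim S D Z)).card * (ρ * Real.exp (-1)) ^ (Uim S D Z).card := h2
      _ ≤ (n : ℝ) ^ (t + D.card * Z.card) * (ρ * Real.exp (-1)) ^ (D.card * k) := by
          rw [h3]
          apply mul_le_mul_of_nonneg_right (pow_le_pow_right₀ hn' h4); positivity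
      _ = (n : ℝ) ^ t * x ^ D.card := by
          rw [hx, pow_add, mul_pow _ _ D.card, ← pow_mul, ← pow_mul, mul_comm D.card Z.card,
            mul_comm D.card k]
          ring
  have hM := M_bound n hn D.card t x hx0 hfac
  have hMD : 1 ≤ t → (D.card : ℝ) ≤ H.maxDegree := by
    intro h
    obtain ⟨w, hw⟩ := Finset.card_pos.mp h
    obtain ⟨hwZ, y, hy, hadj⟩ := mem_bd.mp hw
    have h1 : D.card ≤ (H.neighborFinset (φ₀ w)).card := by
      apply Finset.card_le_card_of_injOn (fun φ => φ y)
      · intro φ hφ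
        rw [Finset.mem_coe, SimpleGraph.mem_neighborFinset, hagreeD φ₀ h₀ φ hφ w hwZ]
        exact ((hembD φ hφ).2 _ _ hadj).symm
      · intro φ hφ φ' hφ' h
        by_contra hne
        exact (Finset.disjoint_left.mp (hdisj φ hφ φ' hφ' hne)) (Finset.mem_image_of_mem φ hy)
          (by simp only at h; rw [h]; exact Finset.mem_image_of_mem φ' hy)
    have h2 : D.card ≤ H.maxDegree := h1.trans (by
      rw [SimpleGraph.card_neighborFinset_eq_degree]
      exact SimpleGraph.degree_le_maxDegree H _)
    exact_mod_cast h2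
  -- the count
  have hF : (Q.card : ℝ) ≤ (Z.card : ℝ) ^ 2 * (D.card : ℝ) * b ^ (Z.card - 1) := by
    have hsub : Q ⊆ Z.biUnion (fun z => (Fim D Z).biUnion (fun y => Q.filter (fun φ => φ z = y))) := by
      intro φ hφ
      obtain ⟨z, hz, h⟩ := hcover φ hφ
      rw [Finset.mem_biUnion]
      refine ⟨z, hz, ?_⟩
      rw [Finset.mem_biUnion]
      exact ⟨φ z, h, Finset.mem_filter.mpr ⟨hφ, rfl⟩⟩
    have hone : ∀ z ∈ Z, ∀ y : W, ((Q.filter (fun φ => φ z = y)).card : ℝ) ≤ b ^ (Z.card - 1) := by
      intro z hz y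
      have h1 := family_card_le S H n hn ρ hρ0.le hρ1 hP1 (Z.card - 1) (Z.erase z)
        (Finset.card_erase_of_mem hz) (by
          intro Y' hY'
          by_cases hne : Y'.Nonempty
          · refine (hmin Y' (hY'.trans (Finset.erase_subset _ _)) hne ?_).le
            intro h
            rw [h] at hY'
            exact (Finset.notMem_erase z Z) (hY' hz)
          · rw [Finset.not_nonempty_iff_eq_empty] at hne
            rw [hne]
            have : tE S (∅ : Finset V) = ∅ := by
              rw [Finset.eq_empty_iff_forall_notMem]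
              intro e he
              obtain ⟨-, y, hy, -⟩ := mem_tE.mp he
              exact absurd hy (Finset.notMem_empty _)
            rw [this]
            simp) (Q.filter (fun φ => φ z = y))
        (fun φ hφ => hemb φ (Finset.mem_filter.mp hφ).1)
        (by
          intro φ hφ φ' hφ' v hv
          rw [Finset.mem_filter] at hφ hφ'
          by_cases hvz : v = z
          · rw [hvz, hφ.2, hφ'.2]
          · exact hagree φ hφ.1 φ' hφ'.1 v (fun h => hv (Finset.mem_erase.mpr ⟨hvz, h⟩)))
      exact h1.trans (pow_le_pow_left₀ hB0 hb _)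
    calc (Q.card : ℝ) ≤ ((Z.biUnion (fun z => (Fim D Z).biUnion
            (fun y => Q.filter (fun φ => φ z = y)))).card : ℝ) := by
          exact_mod_cast Finset.card_le_card hsub
      _ ≤ ∑ z ∈ Z, ∑ y ∈ Fim D Z, ((Q.filter (fun φ => φ z = y)).card : ℝ) := by
          have h1 : (Z.biUnion (fun z => (Fim D Z).biUnion
            (fun y => Q.filter (fun φ => φ z = y)))).card
              ≤ ∑ z ∈ Z, ∑ y ∈ Fim D Z, (Q.filter (fun φ => φ z = y)).card :=
            Finset.card_biUnion_le.trans (Finset.sum_le_sum (fun z _ => Finset.card_biUnion_le))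
          exact_mod_cast h1
      _ ≤ ∑ z ∈ Z, ∑ y ∈ Fim D Z, b ^ (Z.card - 1) :=
          Finset.sum_le_sum (fun z hz => Finset.sum_le_sum (fun y _ => hone z hz y))
      _ = (Z.card : ℝ) * ((Fim D Z).card * b ^ (Z.card - 1)) := by
          simp only [Finset.sum_const, nsmul_eq_mul]
      _ ≤ (Z.card : ℝ) * (((D.card * Z.card : ℕ) : ℝ) * b ^ (Z.card - 1)) := by
          apply mul_le_mul_of_nonneg_left _ (Nat.cast_nonneg _)
          apply mul_le_mul_of_nonneg_right _ (by positivity)
          exact_mod_cast Fim_card_le Z D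
      _ = _ := by push_cast; ring
  have hxk : 1 ≤ Real.exp 1 ^ k * x := by
    refine hlik.trans (le_of_eq ?_)
    rw [hx, mul_pow, Real.exp_neg, inv_pow]
    have : Real.exp 1 ^ k ≠ 0 := by positivity
    field_simp
  exact final_bound k Z.card t hkpos (Finset.card_pos.mpr hZ) hzk hzt htk
    (Real.log n) H.maxDegree b x D.card Q.card (Real.log_natCast_nonneg n) (Nat.cast_nonneg _)
    hb1 hb hx0 hxk (Nat.cast_nonneg _) hM hMD hF

end Zset

section main

variable {W : Type} [Fintype W]

/-- The set of injective homomorphisms. -/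
noncomputable def embF {V : Type} [Fintype V] (S : SimpleGraph V) (H : SimpleGraph W) :
    Finset (V → W) :=
  Finset.univ.filter (fun φ => IsEmb S H φ)

lemma mem_embF {V : Type} [Fintype V] {S : SimpleGraph V} {H : SimpleGraph W} {φ : V → W} :
    φ ∈ embF S H ↔ IsEmb S H φ := by simp [embF]

lemma eF_split {V : Type} [Fintype V] (S : SimpleGraph V) (Z : Finset V) :
    (eF S).card = (eF (S.induce {v | v ∉ Z})).card + (tE S Z).card := by
  have h1 : (eF (S.induce {v | v ∉ Z})).card
      = ((eF S).filter (fun e => ¬ ∃ y ∈ Z, y ∈ e)).card := by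
    apply Finset.card_bij (fun e _ => Sym2.map Subtype.val e)
    · intro e he
      rw [mem_eF] at he
      induction e using Sym2.ind with
      | _ a b =>
        rw [Sym2.map_mk, Finset.mem_filter, mem_eF]
        refine ⟨he, ?_⟩
        rintro ⟨y, hy, hye⟩
        rw [Sym2.mem_iff] at hye
        rcases hye with rfl | rfl
        · exact a.2 hy
        · exact b.2 hy
    · intro e _ e' _ h
      exact Sym2.map.injective Subtype.val_injective h
    · intro e he
      rw [Finset.mem_filter, mem_eF] at he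
      induction e using Sym2.ind with
      | _ a b =>
        obtain ⟨h1, h2⟩ := he
        have ha : a ∉ Z := fun h => h2 ⟨a, h, Sym2.mem_mk_left _ _⟩
        have hb : b ∉ Z := fun h => h2 ⟨b, h, Sym2.mem_mk_right _ _⟩
        refine ⟨s(⟨a, ha⟩, ⟨b, hb⟩), ?_, ?_⟩
        · rw [mem_eF]
          exact h1
        · rw [Sym2.map_mk]
  have h2 : tE S Z = (eF S).filter (fun e => ∃ y ∈ Z, y ∈ e) := by
    ext e
    rw [mem_tE, Finset.mem_filter, mem_eF]
  rw [h1, h2, add_comm, Finset.card_filter_add_card_filter_not]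

/-- **Counting embeddings.** -/
theorem embF_card_le (H : SimpleGraph W)
    (n : ℕ) (hn : 2 ≤ n) (hWn : Fintype.card W ≤ n) (ρ : ℝ) (hρ0 : 0 < ρ) (hρ1 : ρ ≤ 1)
    (hP : ∀ U : Finset (Sym2 W), (∀ e ∈ U, e ∈ H.edgeSet) →
      (autc U : ℝ) ≤ (n : ℝ) ^ (supp U).card * (ρ * Real.exp (-1)) ^ U.card)
    (b : ℝ) (hb1 : 1 ≤ b) (hb : min (Real.log n) (H.maxDegree : ℝ) ≤ b) :
    ∀ (m : ℕ) (V : Type) [Fintype V] (S : SimpleGraph V), Fintype.card V = m →
      ((embF S H).card : ℝ) ≤ (64 * b * (ρ * Real.exp (-1))) ^ (eF S).card * (n : ℝ) ^ m := by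
  have hn' : (1 : ℝ) ≤ n := by exact_mod_cast (by omega : 1 ≤ n)
  have hn0 : (0 : ℝ) < n := by linarith
  have hb0 : 0 < b := by linarith
  intro m
  induction m using Nat.strong_induction_on with
  | _ m ih =>
    intro V _ S hV
    by_cases hne : (embF S H).Nonempty
    swap
    · rw [Finset.not_nonempty_iff_eq_empty] at hne
      rw [hne, Finset.card_empty, Nat.cast_zero]
      positivity
    rcases Nat.eq_zero_or_pos m with hm | hm
    · -- no vertices
      subst hm
      have hemp : IsEmpty V := Fintype.card_eq_zero_iff.mp hV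
      have h1 : (eF S).card = 0 := by
        rw [Finset.card_eq_zero, Finset.eq_empty_iff_forall_notMem]
        intro e
        induction e using Sym2.ind with
        | _ a b => exact hemp.elim a
      have h2 : (embF S H).card ≤ 1 := by
        rw [Finset.card_le_one]
        intro a _ b _
        exact Subsingleton.elim a b
      rw [h1, pow_zero, pow_zero, mul_one]
      exact_mod_cast h2
    have hVne : Nonempty V := by
      rw [← Fintype.card_pos_iff]; omega
    -- the whole vertex set is likely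
    obtain ⟨φ₀, h₀⟩ := hne
    rw [mem_embF] at h₀
    have huniv : 1 ≤ (n : ℝ) ^ (Finset.univ : Finset V).card * ρ ^ (tE S Finset.univ).card := by
      set U : Finset (Sym2 W) := (tE S Finset.univ).image (Sym2.map φ₀) with hU
      have hUH : ∀ e ∈ U, e ∈ H.edgeSet := by
        intro e he
        rw [hU, Finset.mem_image] at he
        obtain ⟨e', he', rfl⟩ := he
        exact h₀.map_mem (mem_tE.mp he').1
      have h1 := hP U hUH
      have h2 : (1 : ℝ) ≤ autc U := by exact_mod_cast one_le_autc U
      have h3 : U.card = (tE S Finset.univ).card :=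
        Finset.card_image_of_injective _ (Sym2.map.injective h₀.1)
      have h4 : (supp U).card ≤ (Finset.univ : Finset V).card := by
        calc (supp U).card ≤ ((Finset.univ : Finset V).image φ₀).card := by
              apply Finset.card_le_card
              intro w hw
              rw [mem_supp] at hw
              obtain ⟨e, he, hwe⟩ := hw
              rw [hU, Finset.mem_image] at he
              obtain ⟨e', -, rfl⟩ := he
              rw [Sym2.mem_map] at hwe
              obtain ⟨v, -, rfl⟩ := hwe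
              exact Finset.mem_image_of_mem _ (Finset.mem_univ _)
          _ ≤ _ := Finset.card_image_le
      have he1 : Real.exp (-1) ≤ 1 := by
        rw [Real.exp_le_one_iff]; norm_num
      calc (1 : ℝ) ≤ autc U := h2
        _ ≤ (n : ℝ) ^ (supp U).card * (ρ * Real.exp (-1)) ^ U.card := h1
        _ ≤ (n : ℝ) ^ (Finset.univ : Finset V).card * ρ ^ (tE S Finset.univ).card := by
            rw [h3]
            apply mul_le_mul (pow_le_pow_right₀ hn' h4) _ (by positivity) (by positivity)
            apply pow_le_pow_left₀ (by positivity)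
            nlinarith
    -- a minimal likely set
    set C : Finset (Finset V) := Finset.univ.filter (fun Z => Z.Nonempty ∧
      1 ≤ (n : ℝ) ^ Z.card * ρ ^ (tE S Z).card) with hC
    have hCne : C.Nonempty := ⟨Finset.univ, by
      rw [hC, Finset.mem_filter]
      exact ⟨Finset.mem_univ _, Finset.univ_nonempty, huniv⟩⟩
    obtain ⟨Z, hZC, hZmin⟩ := Finset.exists_min_image C Finset.card hCne
    rw [hC, Finset.mem_filter] at hZC
    obtain ⟨-, hZne, hZlik⟩ := hZC
    have hmin : ∀ Z' ⊆ Z, Z'.Nonempty → Z' ≠ Z →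
        (n : ℝ) ^ Z'.card * ρ ^ (tE S Z').card < 1 := by
      intro Z' hZ' hne hneq
      by_contra hcon
      push Not at hcon
      have hin : Z' ∈ C := by
        rw [hC, Finset.mem_filter]
        exact ⟨Finset.mem_univ _, hne, hcon⟩
      have h1 := hZmin Z' hin
      have h2 := Finset.card_lt_card (Finset.ssubset_iff_subset_ne.mpr ⟨hZ', hneq⟩)
      omega
    -- restriction
    set V' := {v : V | v ∉ Z} with hV'
    set S' := S.induce V' with hS'
    set res : (V → W) → (V' → W) := fun φ v => φ v.1 with hres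
    have hV'card : Fintype.card V' = m - Z.card := by
      rw [← hV]
      have : Fintype.card V' = (Finset.univ.filter (fun v => v ∉ Z)).card := by
        rw [← Fintype.card_subtype]
        rfl
      rw [this, Finset.filter_notMem_eq_sdiff, Finset.card_sdiff_of_subset (Finset.subset_univ _),
        Finset.card_univ]
    have hZpos : 0 < Z.card := Finset.card_pos.mpr hZne
    have hZm : Z.card ≤ m := by
      rw [← hV, ← Finset.card_univ]; exact Finset.card_le_card (Finset.subset_univ _)
    have hih := ih (m - Z.card) (by omega) V' S' hV'card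
    have hfib : ∀ ψ ∈ (embF S H).image res, (((embF S H).filter (fun φ => res φ = ψ)).card : ℝ)
        ≤ (64 * b) ^ (tE S Z).card
          * ((n : ℝ) ^ Z.card * (ρ * Real.exp (-1)) ^ (tE S Z).card) := by
      intro ψ _
      apply Z_family S H n hn hWn ρ hρ0 hρ1 hP b hb1 hb Z hZne hZlik hmin
      · intro φ hφ
        exact mem_embF.mp (Finset.mem_filter.mp hφ).1
      · intro φ hφ φ' hφ' v hv
        have h1 := (Finset.mem_filter.mp hφ).2
        have h2 := (Finset.mem_filter.mp hφ').2
        rw [← h2] at h1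
        exact congrFun h1 ⟨v, hv⟩
    have himg : (embF S H).image res ⊆ embF S' H := by
      intro ψ hψ
      rw [Finset.mem_image] at hψ
      obtain ⟨φ, hφ, rfl⟩ := hψ
      rw [mem_embF] at hφ ⊢
      refine ⟨fun a b h => Subtype.ext (hφ.1 h), fun a b h => hφ.2 _ _ h⟩
    have hcard : ((embF S H).card : ℝ) = ∑ ψ ∈ (embF S H).image res,
        (((embF S H).filter (fun φ => res φ = ψ)).card : ℝ) := by
      rw [Finset.card_eq_sum_card_image res (embF S H)]
      push_cast
      rfl
    rw [hcard]
    calc _ ≤ ∑ ψ ∈ (embF S H).image res, (64 * b) ^ (tE S Z).card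
          * ((n : ℝ) ^ Z.card * (ρ * Real.exp (-1)) ^ (tE S Z).card) := Finset.sum_le_sum hfib
      _ = (((embF S H).image res).card : ℝ) * ((64 * b) ^ (tE S Z).card
          * ((n : ℝ) ^ Z.card * (ρ * Real.exp (-1)) ^ (tE S Z).card)) := by
          rw [Finset.sum_const, nsmul_eq_mul]
      _ ≤ ((64 * b * (ρ * Real.exp (-1))) ^ (eF S').card * (n : ℝ) ^ (m - Z.card))
          * ((64 * b) ^ (tE S Z).card
          * ((n : ℝ) ^ Z.card * (ρ * Real.exp (-1)) ^ (tE S Z).card)) := by
          apply mul_le_mul_of_nonneg_right _ (by positivity)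
          refine le_trans ?_ hih
          exact_mod_cast Finset.card_le_card himg
      _ = (64 * b * (ρ * Real.exp (-1))) ^ (eF S).card * (n : ℝ) ^ m := by
          rw [eF_split S Z, pow_add]
          have : (n : ℝ) ^ m = (n : ℝ) ^ (m - Z.card) * (n : ℝ) ^ Z.card := by
            rw [← pow_add]; congr 1; omega
          rw [this, mul_pow (64 * b) (ρ * Real.exp (-1)) (tE S Z).card]
          ring

end main

end Pool.Agent.TH965.Emb
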